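import Mathlib

/-!
# The algebras `k ⊕ M_m ⊕ M_m`

`JM k m` is the local commutative algebra `k ⊕ V ⊕ W`, `V = W = M_m(k)`, in which `V W = W W = 0`
and the product of `X, Y ∈ V` is `X Y + Y X ∈ W`. If the characteristic of `k` is not `2` or `3`, it
is the quotient of the apolar algebra of the cubic `tr (X ^ 3)` by the third power of its maximal
ideal.
-/

open Module

set_option linter.unusedSimpArgs false

namespace Pool.Agent.H14.MM

universe u

/-- The algebra `k ⊕ M_m(k) ⊕ M_m(k)` with
`(a, X, Y) (a', X', Y') = (a a', a X' + a' X, a Y' + a' Y + X X' + X' X)`. -/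
def JM (k : Type u) [Field k] (m : ℕ) : Type u :=
  k × Matrix (Fin m) (Fin m) k × Matrix (Fin m) (Fin m) k

namespace JM

variable {k : Type u} [Field k] {m : ℕ}

section aux

/-- auxiliary: additive structure (subsumed by the ring structure below) -/
@[reducible] noncomputable def auxAdd (k : Type u) [Field k] (m : ℕ) : AddCommGroup (JM k m) :=
  inferInstanceAs (AddCommGroup (k × Matrix (Fin m) (Fin m) k × Matrix (Fin m) (Fin m) k))

attribute [local instance] auxAdd

/-- auxiliary: vector space structure (subsumed by the algebra structure below) -/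
@[reducible] noncomputable def auxModule (k : Type u) [Field k] (m : ℕ) : Module k (JM k m) :=
  inferInstanceAs (Module k (k × Matrix (Fin m) (Fin m) k × Matrix (Fin m) (Fin m) k))

attribute [local instance] auxModule

/-- the anticommutator -/
noncomputable def Q (u v : Matrix (Fin m) (Fin m) k) : Matrix (Fin m) (Fin m) k := u * v + v * u

theorem Q_comm (u v : Matrix (Fin m) (Fin m) k) : Q u v = Q v u := add_comm _ _

theorem Q_add (u v w : Matrix (Fin m) (Fin m) k) : Q u (v + w) = Q u v + Q u w := by
  simp only [Q, mul_add, add_mul]; abel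

theorem Q_smul (c : k) (u v : Matrix (Fin m) (Fin m) k) : Q u (c • v) = c • Q u v := by
  simp only [Q, mul_smul_comm, smul_mul_assoc, smul_add]

theorem add_Q (u v w : Matrix (Fin m) (Fin m) k) : Q (u + v) w = Q u w + Q v w := by
  rw [Q_comm, Q_add, Q_comm w u, Q_comm w v]

theorem smul_Q (c : k) (u v : Matrix (Fin m) (Fin m) k) : Q (c • u) v = c • Q u v := by
  rw [Q_comm, Q_smul, Q_comm v u]

noncomputable instance : Mul (JM k m) :=
  ⟨fun a b => (a.1 * b.1, a.1 • b.2.1 + b.1 • a.2.1,
    a.1 • b.2.2 + b.1 • a.2.2 + (a.2.1 * b.2.1 + b.2.1 * a.2.1))⟩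

noncomputable instance : One (JM k m) := ⟨(1, 0, 0)⟩


@[simp] theorem mul_fst (a b : JM k m) : (a * b).1 = a.1 * b.1 := rfl
@[simp] theorem mul_snd1 (a b : JM k m) : (a * b).2.1 = a.1 • b.2.1 + b.1 • a.2.1 := rfl
@[simp] theorem mul_snd2 (a b : JM k m) :
    (a * b).2.2 = a.1 • b.2.2 + b.1 • a.2.2 + Q a.2.1 b.2.1 := rfl
@[simp] theorem one_fst : (1 : JM k m).1 = 1 := rfl
@[simp] theorem one_snd1 : (1 : JM k m).2.1 = 0 := rfl
@[simp] theorem one_snd2 : (1 : JM k m).2.2 = 0 := rfl

theorem add_fst (a b : JM k m) : (a + b).1 = a.1 + b.1 := rfl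
theorem add_snd1 (a b : JM k m) : (a + b).2.1 = a.2.1 + b.2.1 := rfl
theorem add_snd2 (a b : JM k m) : (a + b).2.2 = a.2.2 + b.2.2 := rfl
@[simp] theorem zero_fst : (0 : JM k m).1 = 0 := rfl
@[simp] theorem zero_snd1 : (0 : JM k m).2.1 = 0 := rfl
@[simp] theorem zero_snd2 : (0 : JM k m).2.2 = 0 := rfl
@[simp] theorem smul_fst (c : k) (a : JM k m) : (c • a).1 = c * a.1 := rfl
@[simp] theorem smul_snd1 (c : k) (a : JM k m) : (c • a).2.1 = c • a.2.1 := rfl
@[simp] theorem smul_snd2 (c : k) (a : JM k m) : (c • a).2.2 = c • a.2.2 := rfl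

@[ext] theorem ext' {a b : JM k m} (h1 : a.1 = b.1) (h2 : a.2.1 = b.2.1) (h3 : a.2.2 = b.2.2) :
    a = b := Prod.ext h1 (Prod.ext h2 h3)

@[simp] theorem zero_Q (u : Matrix (Fin m) (Fin m) k) : Q 0 u = 0 := by
  simp [Q]

@[simp] theorem Q_zero (u : Matrix (Fin m) (Fin m) k) : Q u 0 = 0 := by simp [Q]

noncomputable instance : CommRing (JM k m) :=
  { (inferInstance : AddCommGroup (JM k m)) with
    mul := (· * ·)
    one := 1
    left_distrib := by
      intro a b c
      apply ext'
      · simp only [mul_fst, mul_snd1, mul_snd2, add_fst]; ring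
      · simp only [mul_fst, mul_snd1, mul_snd2, add_fst, add_snd1, smul_add, add_smul]; abel
      · simp only [mul_fst, mul_snd1, mul_snd2, add_fst, add_snd1, add_snd2, smul_add, add_smul, Q_add]; abel
    right_distrib := by
      intro a b c
      apply ext'
      · simp only [mul_fst, mul_snd1, mul_snd2, add_fst]; ring
      · simp only [mul_fst, mul_snd1, mul_snd2, add_fst, add_snd1, smul_add, add_smul]; abel
      · simp only [mul_fst, mul_snd1, mul_snd2, add_fst, add_snd1, add_snd2, smul_add, add_smul, add_Q]; abel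
    zero_mul := by
      intro a
      apply ext'
      · simp
      · simp
      · simp [zero_Q]
    mul_zero := by
      intro a
      apply ext'
      · simp
      · simp
      · simp [Q_zero]
    mul_assoc := by
      intro a b c
      apply ext'
      · simp only [mul_fst, mul_snd1, mul_snd2]; ring
      · simp only [mul_fst, mul_snd1, mul_snd2, smul_add, smul_smul]; rw [mul_comm c.1 a.1, mul_comm c.1 b.1]; abel
      · simp only [mul_fst, mul_snd1, mul_snd2, smul_add, smul_smul, add_Q, Q_add, smul_Q, Q_smul]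
        rw [mul_comm c.1 a.1, mul_comm c.1 b.1]; abel
    one_mul := by
      intro a
      apply ext'
      · simp
      · simp
      · simp [zero_Q]
    mul_one := by
      intro a
      apply ext'
      · simp
      · simp
      · simp [Q_zero]
    mul_comm := by
      intro a b
      apply ext'
      · simp only [mul_fst, mul_snd1, mul_snd2]; ring
      · simp only [mul_fst, mul_snd1, mul_snd2]; abel
      · simp only [mul_fst, mul_snd1, mul_snd2]; rw [Q_comm]; abel }

noncomputable instance : Algebra k (JM k m) :=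
  Algebra.ofModule
    (by
      intro r x y
      apply ext'
      · simp only [mul_fst, mul_snd1, mul_snd2, smul_fst]; ring
      · simp only [mul_fst, mul_snd1, mul_snd2, smul_fst, smul_snd1, smul_add, smul_smul]; rw [mul_comm y.1 r]
      · simp only [mul_fst, mul_snd1, mul_snd2, smul_fst, smul_snd1, smul_snd2, smul_add, smul_smul, smul_Q]
        rw [mul_comm y.1 r])
    (by
      intro r x y
      apply ext'
      · simp only [mul_fst, mul_snd1, mul_snd2, smul_fst]; ring
      · simp only [mul_fst, mul_snd1, mul_snd2, smul_fst, smul_snd1, smul_add, smul_smul]; rw [mul_comm x.1 r]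
      · simp only [mul_fst, mul_snd1, mul_snd2, smul_fst, smul_snd1, smul_snd2, smul_add, smul_smul, Q_smul]
        rw [mul_comm x.1 r])

end aux

/-- index type of the basis -/
abbrev Idx (m : ℕ) : Type := Unit ⊕ (Fin m × Fin m) ⊕ (Fin m × Fin m)

/-- coordinates -/
noncomputable def equivFun (k : Type u) [Field k] (m : ℕ) : JM k m ≃ₗ[k] (Idx m → k) where
  toFun a := Sum.elim (fun _ => a.1) (Sum.elim (fun s => a.2.1 s.1 s.2) (fun s => a.2.2 s.1 s.2))
  invFun f := (f (Sum.inl ()), Matrix.of fun i j => f (Sum.inr (Sum.inl (i, j))),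
    Matrix.of fun i j => f (Sum.inr (Sum.inr (i, j))))
  map_add' a b := by
    funext i
    rcases i with _ | _ | _ <;> rfl
  map_smul' c a := by
    funext i
    rcases i with _ | _ | _ <;> rfl
  left_inv a := rfl
  right_inv f := by
    funext i
    rcases i with _ | _ | _ <;> rfl

/-- the basis -/
noncomputable def bas (k : Type u) [Field k] (m : ℕ) : Basis (Idx m) k (JM k m) :=
  Basis.ofEquivFun (equivFun k m)

theorem finrank_eq : finrank k (JM k m) = 1 + 2 * m ^ 2 := by
  rw [finrank_eq_card_basis (bas k m)]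
  simp
  ring

noncomputable instance : Module.Finite k (JM k m) := Module.Finite.of_basis (bas k m)

theorem repr_apply (a : JM k m) (i : Idx m) :
    (bas k m).repr a i = equivFun k m a i := by
  rw [bas, Basis.ofEquivFun_repr_apply]

theorem repr_one (a : JM k m) : (bas k m).repr a (Sum.inl ()) = a.1 := by
  rw [repr_apply]; rfl

theorem repr_V (a : JM k m) (v : Fin m × Fin m) :
    (bas k m).repr a (Sum.inr (Sum.inl v)) = a.2.1 v.1 v.2 := by
  rw [repr_apply]; rfl

theorem repr_W (a : JM k m) (w : Fin m × Fin m) :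
    (bas k m).repr a (Sum.inr (Sum.inr w)) = a.2.2 w.1 w.2 := by
  rw [repr_apply]; rfl

/-- the element `(0, X, 0)` -/
noncomputable def ofV (X : Matrix (Fin m) (Fin m) k) : JM k m := (0, X, 0)

@[simp] theorem ofV_fst (X : Matrix (Fin m) (Fin m) k) : (ofV X).1 = 0 := rfl
@[simp] theorem ofV_snd1 (X : Matrix (Fin m) (Fin m) k) : (ofV X).2.1 = X := rfl
@[simp] theorem ofV_snd2 (X : Matrix (Fin m) (Fin m) k) : (ofV X).2.2 = 0 := rfl

theorem ofV_mul (X Y : Matrix (Fin m) (Fin m) k) :
    ofV X * ofV Y = (((0 : k), (0 : Matrix (Fin m) (Fin m) k), X * Y + Y * X) : JM k m) := by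
  apply ext'
  · simp
  · simp
  · rw [mul_snd2]; simp [Q]

end JM

end Pool.Agent.H14.MM
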