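import Pool.Agent.H14.MM.Lower
import Pool.Agent.H14.MM.Algebra

/-!
# Lower bound for smoothable covers of the powers of `JM k m`
-/

open TensorProduct Module

namespace Pool.Agent.H14.MM

open Pool.Agent.H12.Defect

universe u

variable {k : Type u} [Field k]

/-- the embedding of the `p`-th block of indices -/
def blk {m' m : ℕ} (h : 3 * m' ≤ m) (p : Fin 3) (a : Fin m') : Fin m :=
  ⟨(p : ℕ) * m' + (a : ℕ), by
    have h1 := p.2
    have h2 := a.2
    have h3 : (p : ℕ) * m' ≤ 2 * m' := Nat.mul_le_mul_right _ (by omega)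
    omega⟩

theorem blk_inj {m' m : ℕ} (h : 3 * m' ≤ m) {p q : Fin 3} {a b : Fin m'}
    (hab : blk h p a = blk h q b) : p = q ∧ a = b := by
  have h0 : (p : ℕ) * m' + (a : ℕ) = (q : ℕ) * m' + (b : ℕ) := congrArg Fin.val hab
  have ha := a.2
  have hb := b.2
  have hpq : (p : ℕ) = (q : ℕ) := by
    rcases lt_trichotomy (p : ℕ) (q : ℕ) with h1 | h1 | h1
    · have : ((p : ℕ) + 1) * m' ≤ (q : ℕ) * m' := Nat.mul_le_mul_right _ h1
      rw [add_mul] at this
      omega
    · exact h1
    · have : ((q : ℕ) + 1) * m' ≤ (p : ℕ) * m' := Nat.mul_le_mul_right _ h1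
      rw [add_mul] at this
      omega
  refine ⟨Fin.ext hpq, Fin.ext ?_⟩
  rw [hpq] at h0
  omega

theorem blk_eq_iff {m' m : ℕ} (h : 3 * m' ≤ m) {p : Fin 3} {a b : Fin m'} :
    blk h p a = blk h p b ↔ a = b :=
  ⟨fun hab => (blk_inj h hab).2, fun hab => by rw [hab]⟩

theorem mmT_blk {m' m : ℕ} (h : 3 * m' ≤ m) (p q z : Fin m' × Fin m') :
    (JM.ofV (Matrix.single (blk h 0 p.1) (blk h 1 p.2) (1 : k)) *
      JM.ofV (Matrix.single (blk h 1 q.1) (blk h 2 q.2) (1 : k)) : JM k m).2.2
        (blk h 0 z.1) (blk h 2 z.2) = mmT k (Fin m') p q z := by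
  rw [JM.ofV_mul]
  obtain ⟨p1, p2⟩ := p
  obtain ⟨q1, q2⟩ := q
  obtain ⟨z1, z2⟩ := z
  have h1 : Matrix.single (blk h 1 q1) (blk h 2 q2) (1 : k) *
      Matrix.single (blk h 0 p1) (blk h 1 p2) (1 : k) = 0 := by
    rw [Matrix.single_mul_single_of_ne]
    intro hh
    exact absurd (blk_inj h hh).1 (by decide)
  show (Matrix.single (blk h 0 p1) (blk h 1 p2) (1 : k) *
      Matrix.single (blk h 1 q1) (blk h 2 q2) (1 : k) +
      Matrix.single (blk h 1 q1) (blk h 2 q2) (1 : k) *
      Matrix.single (blk h 0 p1) (blk h 1 p2) (1 : k)) (blk h 0 z1) (blk h 2 z2) = _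
  rw [h1, add_zero]
  by_cases hp : p2 = q1
  · subst hp
    simp [mmT, Matrix.single_mul_single_same, Matrix.single_apply, blk_eq_iff]
  · rw [Matrix.single_mul_single_of_ne _ _ _ _ (fun hh => hp (blk_inj h hh).2)]
    simp [mmT, hp]

/-- product basis of the tensor power -/
noncomputable def pbasJ (k : Type u) [Field k] (m n : ℕ) :
    Basis (Fin n → JM.Idx m) k (⨂[k] _ : Fin n, JM k m) :=
  Basis.piTensorProduct (fun _ : Fin n => JM.bas k m)

theorem finrank_powJ (k : Type u) [Field k] (m n : ℕ) :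
    finrank k (⨂[k] _ : Fin n, JM k m) = (1 + 2 * m ^ 2) ^ n := by
  rw [finrank_eq_card_basis (pbasJ k m n)]
  simp
  ring

instance (k : Type u) [Field k] (m n : ℕ) : Module.Finite k (⨂[k] _ : Fin n, JM k m) :=
  Module.Finite.of_basis (pbasJ k m n)

/-- Every smoothable cover `B` of the `n`-th power of `JM k m` computes powers of `m'^n × m'^n`
matrix multiplication. -/
theorem mmRank_pow_le_of_smoothable [Infinite k] {m' m n : ℕ} (h : 3 * m' ≤ m) {B : Type u}
    [CommRing B] [Algebra k B] (hB : IsSmoothable k B) (g : B →ₐ[k] ⨂[k] _ : Fin n, JM k m)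
    (hg : Function.Surjective g) (N : ℕ) :
    mmRank k ((m' ^ n) ^ N) ≤
      (N + 1) ^ ((m' ^ 2) ^ n * (m' ^ 2) ^ n * (m' ^ 2) ^ n) * (finrank k B) ^ N := by
  classical
  have h1 := smoothable_rank hB g hg
    (I := Fin n → Fin m' × Fin m') (J := Fin n → Fin m' × Fin m') (L := Fin n → Fin m' × Fin m')
    (fun x => PiTensorProduct.tprod k
      fun i => JM.ofV (Matrix.single (blk h 0 (x i).1) (blk h 1 (x i).2) (1 : k)))
    (fun x => PiTensorProduct.tprod k
      fun i => JM.ofV (Matrix.single (blk h 1 (x i).1) (blk h 2 (x i).2) (1 : k)))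
    (fun z => (pbasJ k m n).coord
      (fun i => Sum.inr (Sum.inr (blk h 0 (z i).1, blk h 2 (z i).2)))) N
  have h2 : ∀ x y z : Fin n → Fin m' × Fin m', (pbasJ k m n).coord
      (fun i => Sum.inr (Sum.inr (blk h 0 (z i).1, blk h 2 (z i).2)))
      ((PiTensorProduct.tprod k
      fun i => JM.ofV (Matrix.single (blk h 0 (x i).1) (blk h 1 (x i).2) (1 : k))) *
      (PiTensorProduct.tprod k
      fun i => JM.ofV (Matrix.single (blk h 1 (y i).1) (blk h 2 (y i).2) (1 : k)))) =
      kpow n (mmT k (Fin m')) x y z := by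
    intro x y z
    rw [Basis.coord_apply, pbasJ, PiTensorProduct.tprod_mul_tprod,
      Basis.piTensorProduct_repr_tprod_apply, kpow]
    refine Finset.prod_congr rfl fun i _ => ?_
    rw [Pi.mul_apply, JM.repr_W]
    exact mmT_blk h (x i) (y i) (z i)
  simp only [h2] at h1
  have h3 : mmRank k (m' ^ (n * N)) ≤ (N + 1) ^ (Fintype.card (Fin n → Fin m' × Fin m') *
      Fintype.card (Fin n → Fin m' × Fin m') * Fintype.card (Fin n → Fin m' × Fin m')) *
      finrank k B ^ N := by
    apply mmRank_pow_le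
    have e : Fin (n * N) ≃ Fin N × Fin n := (finProdFinEquiv (m := N) (n := n)).symm.trans
      (Equiv.refl _) |> fun f => (finCongr (mul_comm n N)).trans f
    have h4 := h1.comp
      (fun x : Fin (n * N) → Fin m' × Fin m' => fun i j => x (e.symm (i, j)))
      (fun x : Fin (n * N) → Fin m' × Fin m' => fun i j => x (e.symm (i, j)))
      (fun x : Fin (n * N) → Fin m' × Fin m' => fun i j => x (e.symm (i, j)))
    convert h4 using 1
    funext x y z
    simp only [kpow]
    rw [← Fintype.prod_prod_type', ← Equiv.prod_comp e.symm]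
  rw [← pow_mul]
  convert h3 using 2
  simp
  ring

end Pool.Agent.H14.MM
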