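import Pool.Agent.H14.MM.Products
import Pool.Agent.H14.MM.LowerJM

/-!
# Smoothable covers of the powers of `JM k m` from matrix multiplication algorithms
-/

open TensorProduct Module

namespace Pool.Agent.H14.MM

open Pool.Agent.H12.Defect

universe u

section cases

theorem exists_sub_single {σ : Type} [Fintype σ] [DecidableEq σ] {α : σ → ℕ} (h : α ≠ 0) :
    ∃ (s : σ) (β : σ → ℕ), α = β + Pi.single s 1 := by
  obtain ⟨s, hs⟩ := Function.ne_iff.mp h
  refine ⟨s, fun t => α t - (Pi.single s 1 : σ → ℕ) t, ?_⟩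
  funext t
  by_cases ht : t = s
  · subst ht
    have : α t ≠ 0 := hs
    simp only [Pi.add_apply, Pi.single_eq_same]
    omega
  · simp [Pi.add_apply, Pi.single_eq_of_ne ht]

theorem mon_add {σ : Type} [Fintype σ] {S : Type*} [CommRing S] (y : σ → S) (α β : σ → ℕ) :
    ∏ s, y s ^ (α + β) s = (∏ s, y s ^ α s) * ∏ s, y s ^ β s := by
  simp only [Pi.add_apply, pow_add, Finset.prod_mul_distrib]

theorem mon_single {σ : Type} [Fintype σ] [DecidableEq σ] {S : Type*} [CommRing S] (y : σ → S)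
    (s : σ) : ∏ t, y t ^ (Pi.single s 1 : σ → ℕ) t = y s := by
  rw [Finset.prod_eq_single s]
  · simp
  · intro t _ ht; simp [Pi.single_eq_of_ne ht]
  · intro hh; exact absurd (Finset.mem_univ _) hh

variable {k : Type u} [Field k] {σ Z : Type} [Fintype σ] [Fintype Z] {A : Type u} [CommRing A]
  [Algebra k A]

theorem approx_of {p : Z → σ → PowerSeries k} {x : σ → A} {l : A →ₗ[k] k} (M : ℕ)
    (c : Z → PowerSeries k)
    (h0 : ∃ g : PowerSeries k, ∑ z, c z = PowerSeries.X ^ M * g ∧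
      PowerSeries.constantCoeff g = l 1)
    (h1 : ∀ s, ∃ g : PowerSeries k, ∑ z, c z * p z s = PowerSeries.X ^ M * g ∧
      PowerSeries.constantCoeff g = l (x s))
    (h2 : ∀ s s', ∃ g : PowerSeries k, ∑ z, c z * (p z s * p z s') = PowerSeries.X ^ M * g ∧
      PowerSeries.constantCoeff g = l (x s * x s'))
    (h3 : ∀ s s' s'' (t : Z → PowerSeries k), ∃ g : PowerSeries k,
      ∑ z, c z * (t z * p z s * p z s' * p z s'') = PowerSeries.X ^ M * g ∧
      PowerSeries.constantCoeff g = 0)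
    (hx3 : ∀ s s' s'', x s * x s' * x s'' = 0) : Approx p x l := by
  classical
  refine ⟨M, c, fun α => ?_⟩
  by_cases hα : α = 0
  · subst hα
    simpa using h0
  obtain ⟨s, β, rfl⟩ := exists_sub_single hα
  by_cases hβ : β = 0
  · subst hβ
    simp only [mon_add, mon_single]
    simpa using h1 s
  obtain ⟨s', β', rfl⟩ := exists_sub_single hβ
  by_cases hβ' : β' = 0
  · subst hβ'
    simp only [mon_add, mon_single]
    simpa using h2 s' s
  obtain ⟨s'', β'', rfl⟩ := exists_sub_single hβ'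
  obtain ⟨g, hg1, hg2⟩ := h3 s'' s' s (fun z => ∏ t, p z t ^ β'' t)
  refine ⟨g, ?_, ?_⟩
  · simp only [mon_add, mon_single]
    exact hg1
  · simp only [mon_add, mon_single]
    rw [hg2, mul_assoc, mul_assoc, ← mul_assoc (x s''), hx3, mul_zero, map_zero]

end cases

section JM

variable {k : Type u} [Field k] {m r : ℕ}

/-- elementary matrices -/
noncomputable abbrev E (k : Type u) [Field k] (m : ℕ) (s : Fin m × Fin m) :
    Matrix (Fin m) (Fin m) k := Matrix.single s.1 s.2 (1 : k)

/-- generators of `JM k m` -/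
noncomputable def xg (k : Type u) [Field k] (m : ℕ) (s : Fin m × Fin m) : JM k m :=
  JM.ofV (E k m s)

theorem ofV_add (X Y : Matrix (Fin m) (Fin m) k) : JM.ofV (X + Y) = JM.ofV X + JM.ofV Y := by
  apply JM.ext'
  · rw [JM.add_fst]; simp
  · rw [JM.add_snd1]; simp
  · rw [JM.add_snd2]; simp

theorem ofV_smul (c : k) (X : Matrix (Fin m) (Fin m) k) : JM.ofV (c • X) = c • JM.ofV X := by
  apply JM.ext'
  · rw [JM.smul_fst]; simp
  · rw [JM.smul_snd1]; simp
  · rw [JM.smul_snd2]; simp

theorem ofV_zero : JM.ofV (0 : Matrix (Fin m) (Fin m) k) = 0 := rfl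

theorem ofV_sum {ι : Type*} (s : Finset ι) (f : ι → Matrix (Fin m) (Fin m) k) :
    JM.ofV (∑ i ∈ s, f i) = ∑ i ∈ s, JM.ofV (f i) := by
  classical
  induction s using Finset.induction_on with
  | empty => simp [ofV_zero]
  | insert i s hi ih => rw [Finset.sum_insert hi, Finset.sum_insert hi, ofV_add, ih]

theorem ofV_eq_sum (X : Matrix (Fin m) (Fin m) k) :
    JM.ofV X = ∑ s : Fin m × Fin m, X s.1 s.2 • xg k m s := by
  conv_lhs => rw [Matrix.matrix_eq_sum_single X]
  rw [Fintype.sum_prod_type, ofV_sum]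
  refine Finset.sum_congr rfl fun i _ => ?_
  rw [ofV_sum]
  refine Finset.sum_congr rfl fun j _ => ?_
  rw [xg, ← ofV_smul]
  congr 1
  simp [E]

theorem adjoin_xg (h2 : (2 : k) ≠ 0) : Algebra.adjoin k (Set.range (xg k m)) = ⊤ := by
  rw [eq_top_iff]
  have hV : ∀ X : Matrix (Fin m) (Fin m) k, JM.ofV X ∈ Algebra.adjoin k (Set.range (xg k m)) := by
    intro X
    rw [ofV_eq_sum]
    exact Subalgebra.sum_mem _ fun s _ =>
      Subalgebra.smul_mem _ (Algebra.subset_adjoin (Set.mem_range_self s)) _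
  intro a _
  have ha : a = algebraMap k (JM k m) a.1 + JM.ofV a.2.1 +
      JM.ofV ((2 : k)⁻¹ • a.2.2) * JM.ofV 1 := by
    rw [Algebra.algebraMap_eq_smul_one]
    apply JM.ext'
    · simp only [JM.add_fst, JM.smul_fst, JM.one_fst, JM.ofV_fst, JM.mul_fst]; ring
    · simp only [JM.add_snd1, JM.smul_snd1, JM.one_snd1, JM.ofV_fst, JM.ofV_snd1, JM.mul_snd1]
      simp
    · simp only [JM.add_snd2, JM.smul_snd2, JM.one_snd2, JM.ofV_fst, JM.ofV_snd1, JM.ofV_snd2,
        JM.mul_snd2, JM.Q]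
      rw [mul_one, one_mul, ← two_smul k ((2 : k)⁻¹ • a.2.2), smul_smul, mul_inv_cancel₀ h2]
      simp
  rw [ha]
  exact Subalgebra.add_mem _ (Subalgebra.add_mem _ (Subalgebra.algebraMap_mem _ _) (hV _))
    (Subalgebra.mul_mem _ (hV _) (hV _))

theorem xg_mul3 (s s' s'' : Fin m × Fin m) : xg k m s * xg k m s' * xg k m s'' = 0 := by
  rw [xg, xg, xg, JM.ofV_mul]
  apply JM.ext'
  · rw [JM.mul_fst]; simp
  · rw [JM.mul_snd1]; simp
  · rw [JM.mul_snd2]; simp

/-- index set of the points -/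
abbrev ZZ (r m : ℕ) : Type := Unit ⊕ (Fin r × Bool) ⊕ (Fin m × Fin m)

/-- sign -/
def sg (k : Type u) [Field k] (b : Bool) : k := if b then 1 else -1

/-- directions of the points of the second kind -/
noncomputable def gam (f g : Fin r → Matrix (Fin m) (Fin m) k →ₗ[k] k) (q : Fin r × Bool)
    (s : Fin m × Fin m) : k := f q.1 (E k m s) + sg k q.2 * g q.1 (E k m s)

/-- the points -/
noncomputable def pts (f g : Fin r → Matrix (Fin m) (Fin m) k →ₗ[k] k) :
    ZZ r m → Fin m × Fin m → PowerSeries k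
  | Sum.inl _, _ => 0
  | Sum.inr (Sum.inl q), s => PowerSeries.X * PowerSeries.C (gam f g q s)
  | Sum.inr (Sum.inr s₀), s => if s = s₀ then PowerSeries.X ^ 3 else 0

theorem approx_one (f g : Fin r → Matrix (Fin m) (Fin m) k →ₗ[k] k) :
    Approx (pts f g) (xg k m) ((JM.bas k m).coord (Sum.inl ())) := by
  refine approx_of 0 (Sum.elim (fun _ => 1) 0) ?_ ?_ ?_ ?_ xg_mul3
  · refine ⟨1, ?_, ?_⟩
    · simp [Fintype.sum_sum_type]
    · rw [Basis.coord_apply, JM.repr_one]; simp
  · intro s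
    refine ⟨0, ?_, ?_⟩
    · simp [Fintype.sum_sum_type, pts]
    · rw [Basis.coord_apply, JM.repr_one]; simp [xg]
  · intro s s'
    refine ⟨0, ?_, ?_⟩
    · simp [Fintype.sum_sum_type, pts]
    · rw [Basis.coord_apply, JM.repr_one]; simp [xg]
  · intro s s' s'' t
    refine ⟨0, ?_, ?_⟩
    · simp [Fintype.sum_sum_type, pts]
    · simp

theorem approx_V (f g : Fin r → Matrix (Fin m) (Fin m) k →ₗ[k] k) (s₀ : Fin m × Fin m) :
    Approx (pts f g) (xg k m) ((JM.bas k m).coord (Sum.inr (Sum.inl s₀))) := by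
  refine approx_of 3 (Sum.elim (fun _ => -1) (Sum.elim 0 (fun s => if s = s₀ then 1 else 0)))
    ?_ ?_ ?_ ?_ xg_mul3
  · refine ⟨0, ?_, ?_⟩
    · simp [Fintype.sum_sum_type]
    · rw [Basis.coord_apply, JM.repr_V]; simp
  · intro s
    refine ⟨if s = s₀ then 1 else 0, ?_, ?_⟩
    · simp only [Fintype.sum_sum_type, pts, Sum.elim_inl, Sum.elim_inr]
      simp [Finset.sum_ite_eq]
    · rw [Basis.coord_apply, JM.repr_V]
      simp only [xg, JM.ofV_snd1, E, Matrix.single_apply, Prod.ext_iff]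
      split_ifs <;> simp
  · intro s s'
    refine ⟨if s = s₀ ∧ s' = s₀ then PowerSeries.X ^ 3 else 0, ?_, ?_⟩
    · simp only [Fintype.sum_sum_type, pts, Sum.elim_inl, Sum.elim_inr]
      by_cases h1 : s = s₀ <;> by_cases h2 : s' = s₀ <;> simp [h1, h2]
    · rw [Basis.coord_apply, JM.repr_V]
      simp only [xg, JM.mul_snd1, JM.ofV_fst]
      split_ifs <;> simp
  · intro s s' s'' t
    refine ⟨if s = s₀ ∧ s' = s₀ ∧ s'' = s₀ then t (Sum.inr (Sum.inr s₀)) * PowerSeries.X ^ 6 else 0,
      ?_, ?_⟩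
    · simp only [Fintype.sum_sum_type, pts, Sum.elim_inl, Sum.elim_inr]
      by_cases h1 : s = s₀ <;> by_cases h2 : s' = s₀ <;> by_cases h3 : s'' = s₀ <;>
        simp [h1, h2, h3]
      ring
    · split_ifs <;> simp

theorem sum_C {ι : Type*} (s : Finset ι) (F : ι → k) :
    ∑ i ∈ s, (PowerSeries.C (F i) : PowerSeries k) = PowerSeries.C (∑ i ∈ s, F i) :=
  (map_sum _ _ _).symm

/-- weights -/
noncomputable def wt (C : Fin r → Matrix (Fin m) (Fin m) k) (s₀ : Fin m × Fin m)
    (q : Fin r × Bool) : k := sg k q.2 * (C q.1 s₀.1 s₀.2 * 2⁻¹)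

/-- the coefficients for the third kind of functionals -/
noncomputable def cW (f g : Fin r → Matrix (Fin m) (Fin m) k →ₗ[k] k)
    (C : Fin r → Matrix (Fin m) (Fin m) k) (s₀ : Fin m × Fin m) : ZZ r m → PowerSeries k :=
  Sum.elim (fun _ => -(∑ q, PowerSeries.X ^ 2 * PowerSeries.C (wt C s₀ q)) +
      ∑ s, PowerSeries.C (∑ q, wt C s₀ q * gam f g q s))
    (Sum.elim (fun q => PowerSeries.X ^ 2 * PowerSeries.C (wt C s₀ q))
      (fun s => - PowerSeries.C (∑ q, wt C s₀ q * gam f g q s)))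

theorem sum_wt (h2 : (2 : k) ≠ 0) {f g : Fin r → Matrix (Fin m) (Fin m) k →ₗ[k] k}
    {C : Fin r → Matrix (Fin m) (Fin m) k}
    (h : ∀ X Y : Matrix (Fin m) (Fin m) k, X * Y = ∑ i, (f i X * g i Y) • C i)
    (s₀ s s' : Fin m × Fin m) :
    ∑ q, wt C s₀ q * (gam f g q s * gam f g q s') =
      (E k m s * E k m s' + E k m s' * E k m s) s₀.1 s₀.2 := by
  rw [h, h, Matrix.add_apply, Matrix.sum_apply, Matrix.sum_apply, ← Finset.sum_add_distrib,
    Fintype.sum_prod_type]
  refine Finset.sum_congr rfl fun j _ => ?_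
  rw [Fintype.sum_bool]
  simp only [wt, gam, sg, Matrix.smul_apply, smul_eq_mul, if_true, Bool.false_eq_true, if_false]
  field_simp
  ring

theorem approx_W (h2 : (2 : k) ≠ 0) {f g : Fin r → Matrix (Fin m) (Fin m) k →ₗ[k] k}
    {C : Fin r → Matrix (Fin m) (Fin m) k}
    (h : ∀ X Y : Matrix (Fin m) (Fin m) k, X * Y = ∑ i, (f i X * g i Y) • C i)
    (s₀ : Fin m × Fin m) :
    Approx (pts f g) (xg k m) ((JM.bas k m).coord (Sum.inr (Sum.inr s₀))) := by
  refine approx_of 4 (cW f g C s₀) ?_ ?_ ?_ ?_ xg_mul3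
  · refine ⟨0, ?_, ?_⟩
    · simp only [Fintype.sum_sum_type, cW, Sum.elim_inl, Sum.elim_inr, Finset.univ_unique,
        Finset.sum_singleton, Finset.sum_neg_distrib]
      ring
    · rw [Basis.coord_apply, JM.repr_W]; simp
  · intro s
    refine ⟨0, ?_, ?_⟩
    · simp only [Fintype.sum_sum_type, cW, pts, Sum.elim_inl, Sum.elim_inr, Finset.univ_unique,
        Finset.sum_singleton, mul_zero, zero_add]
      have e1 : ∑ q : Fin r × Bool, PowerSeries.X ^ 2 * PowerSeries.C (wt C s₀ q) *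
          (PowerSeries.X * PowerSeries.C (gam f g q s)) =
          PowerSeries.X ^ 3 * PowerSeries.C (∑ q, wt C s₀ q * gam f g q s) := by
        rw [← sum_C, Finset.mul_sum]
        refine Finset.sum_congr rfl fun q _ => ?_
        rw [map_mul]; ring
      rw [e1]
      simp only [mul_ite, mul_zero, Finset.sum_ite_eq, Finset.mem_univ, if_true]
      ring
    · rw [Basis.coord_apply, JM.repr_W]; simp [xg]
  · intro s s'
    refine ⟨PowerSeries.C (∑ q, wt C s₀ q * (gam f g q s * gam f g q s')) - PowerSeries.X ^ 2 *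
      (if s = s' then PowerSeries.C (∑ q, wt C s₀ q * gam f g q s) else 0), ?_, ?_⟩
    · simp only [Fintype.sum_sum_type, cW, pts, Sum.elim_inl, Sum.elim_inr, Finset.univ_unique,
        Finset.sum_singleton, mul_zero, zero_add]
      have e1 : ∑ q : Fin r × Bool, PowerSeries.X ^ 2 * PowerSeries.C (wt C s₀ q) *
          (PowerSeries.X * PowerSeries.C (gam f g q s) *
            (PowerSeries.X * PowerSeries.C (gam f g q s'))) =
          PowerSeries.X ^ 4 * PowerSeries.C (∑ q, wt C s₀ q * (gam f g q s * gam f g q s')) := by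
        rw [← sum_C, Finset.mul_sum]
        refine Finset.sum_congr rfl fun q _ => ?_
        rw [map_mul, map_mul]; ring
      rw [e1]
      have e2 : ∑ s₁ : Fin m × Fin m, -PowerSeries.C (∑ q, wt C s₀ q * gam f g q s₁) *
          ((if s = s₁ then (PowerSeries.X : PowerSeries k) ^ 3 else 0) *
            (if s' = s₁ then PowerSeries.X ^ 3 else 0)) =
          - (PowerSeries.X ^ 6 *
            (if s = s' then PowerSeries.C (∑ q, wt C s₀ q * gam f g q s) else 0)) := by
        rw [Finset.sum_eq_single s]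
        · by_cases hs : s = s'
          · subst hs; simp; ring
          · simp [hs, Ne.symm hs]
        · intro s₁ _ hs₁; simp [Ne.symm hs₁]
        · intro hh; exact absurd (Finset.mem_univ _) hh
      rw [e2]
      ring
    · rw [Basis.coord_apply, JM.repr_W, sum_wt h2 h]
      simp only [map_sub, map_mul, map_pow, PowerSeries.constantCoeff_X, PowerSeries.constantCoeff_C]
      rw [xg, xg, JM.ofV_mul]
      ring
  · intro s s' s'' t
    refine ⟨PowerSeries.X * ∑ q, (PowerSeries.C (wt C s₀ q) * t (Sum.inr (Sum.inl q)) *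
        PowerSeries.C (gam f g q s) * PowerSeries.C (gam f g q s') *
        PowerSeries.C (gam f g q s'')) - PowerSeries.X ^ 5 *
        ∑ s₁, (PowerSeries.C (∑ q, wt C s₀ q * gam f g q s₁) * t (Sum.inr (Sum.inr s₁)) *
          ((if s = s₁ then 1 else 0) * (if s' = s₁ then 1 else 0) *
            (if s'' = s₁ then 1 else 0))), ?_, ?_⟩
    · simp only [Fintype.sum_sum_type, cW, pts, Sum.elim_inl, Sum.elim_inr, Finset.univ_unique,
        Finset.sum_singleton, mul_zero, zero_add]
      rw [mul_sub, Finset.mul_sum, Finset.mul_sum, Finset.mul_sum, Finset.mul_sum, sub_eq_add_neg,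
        ← Finset.sum_neg_distrib]
      congr 1
      · refine Finset.sum_congr rfl fun q _ => ?_
        ring
      · refine Finset.sum_congr rfl fun s₁ _ => ?_
        by_cases h1 : s = s₁ <;> by_cases h2 : s' = s₁ <;> by_cases h3 : s'' = s₁ <;>
          simp [h1, h2, h3]
        ring
    · rw [map_sub, map_mul, map_mul, map_pow, PowerSeries.constantCoeff_X]
      ring

/-- A matrix multiplication algorithm with `r` multiplications gives smoothable covers of the
powers of `JM k m`. -/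
theorem exists_cover (h2 : (2 : k) ≠ 0) (h : HasMMRank k m r) (n : ℕ) :
    ∃ (B : Type u) (_ : CommRing B) (_ : Algebra k B), IsSmoothable k B ∧
      (∃ g : B →ₐ[k] (⨂[k] _ : Fin n, JM k m), Function.Surjective g) ∧
      finrank k B ≤ (1 + m ^ 2 + 2 * r) ^ n := by
  obtain ⟨f, g, C, h⟩ := h
  obtain ⟨B, _, _, h1, h3, h4⟩ := exists_smoothable_pow (pts f g) (xg k m) (adjoin_xg h2)
    (JM.bas k m) (by
      rintro (u | s | s)
      · exact approx_one f g
      · exact approx_V f g s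
      · exact approx_W h2 h s) n
  refine ⟨B, inferInstance, inferInstance, h1, h3, h4.trans (le_of_eq ?_)⟩
  congr 1
  simp
  ring

end JM

end Pool.Agent.H14.MM
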