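import Pool.Agent.H14.MM.ApolarDefs
import Pool.Agent.H14.MM.UpperJM

/-!
# Identification of `Ā_m` with `JM k m`
-/

open MvPolynomial

namespace Pool.Agent.H14.MM

universe u

variable {k : Type u} [Field k] {m : ℕ}

section deriv

/-- polynomials in the entries -/
abbrev PM (k : Type u) [Field k] (m : ℕ) : Type u := MvPolynomial (Fin m × Fin m) k

theorem map_mul_D (s : Fin m × Fin m) (A B : Matrix (Fin m) (Fin m) (PM k m)) :
    (A * B).map (pderiv s) = A.map (pderiv s) * B + A * B.map (pderiv s) := by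
  ext1 i j
  simp only [Matrix.map_apply, Matrix.mul_apply, Matrix.add_apply, map_sum, Derivation.leibniz,
    smul_eq_mul, ← Finset.sum_add_distrib]
  refine Finset.sum_congr rfl fun l _ => ?_
  ring

theorem trace_D (s : Fin m × Fin m) (A : Matrix (Fin m) (Fin m) (PM k m)) :
    pderiv s A.trace = (A.map (pderiv s)).trace := by
  simp [Matrix.trace]

/-- constant matrices -/
noncomputable abbrev cst (A : Matrix (Fin m) (Fin m) k) : Matrix (Fin m) (Fin m) (PM k m) :=
  A.map C

theorem cst_D (s : Fin m × Fin m) (A : Matrix (Fin m) (Fin m) k) :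
    (cst A).map (pderiv s) = 0 := by
  ext1 i j
  simp

theorem cst_mul (A B : Matrix (Fin m) (Fin m) k) : cst (A * B) = cst A * cst B :=
  Matrix.map_mul

theorem cst_add (A B : Matrix (Fin m) (Fin m) k) : cst (A + B) = cst A + cst B := by
  ext1 i j; simp

theorem cst_smul (c : k) (A : Matrix (Fin m) (Fin m) k) : cst (c • A) = (C c : PM k m) • cst A := by
  ext1 i j; simp

theorem cst_zero : cst (0 : Matrix (Fin m) (Fin m) k) = 0 := by
  ext1 i j; simp

theorem cst_sum {ι : Type*} (t : Finset ι) (A : ι → Matrix (Fin m) (Fin m) k) :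
    cst (∑ i ∈ t, A i) = ∑ i ∈ t, cst (A i) := by
  ext1 i j
  simp only [cst, Matrix.map_apply, Matrix.sum_apply, map_sum]

theorem genMat_D (s : Fin m × Fin m) : (genMat k m).map (pderiv s) = cst (E k m s) := by
  ext1 i j
  simp only [genMat, Matrix.map_apply, Matrix.of_apply, pderiv_X, cst, E]
  rw [Pi.single_apply, Matrix.single_apply]
  obtain ⟨a, b⟩ := s
  by_cases h : (i, j) = (a, b)
  · rw [if_pos h, if_pos, C_1]
    rw [Prod.mk.injEq] at h
    exact ⟨h.1.symm, h.2.symm⟩
  · rw [if_neg h, if_neg, C_0]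
    rintro ⟨h1, h2⟩
    exact h (by simp only at h1 h2; rw [h1, h2])

theorem dF1 (s : Fin m × Fin m) :
    pderiv s (trCube k m) = 3 * (cst (E k m s) * genMat k m * genMat k m).trace := by
  rw [trCube, trace_D, map_mul_D, map_mul_D, genMat_D, Matrix.trace_add, add_mul, Matrix.trace_add]
  have h1 : (genMat k m * cst (E k m s) * genMat k m).trace =
      (cst (E k m s) * genMat k m * genMat k m).trace := by
    rw [mul_assoc, Matrix.trace_mul_comm]
  have h2 : (genMat k m * genMat k m * cst (E k m s)).trace =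
      (cst (E k m s) * genMat k m * genMat k m).trace := by
    rw [Matrix.trace_mul_comm, mul_assoc]
  rw [h1, h2]
  ring

theorem D_PGG (s : Fin m × Fin m) (P : Matrix (Fin m) (Fin m) k) :
    pderiv s (cst P * genMat k m * genMat k m).trace =
      (cst (P * E k m s + E k m s * P) * genMat k m).trace := by
  rw [trace_D, map_mul_D, map_mul_D, cst_D, zero_mul, zero_add, genMat_D, Matrix.trace_add,
    cst_add, add_mul, Matrix.trace_add, cst_mul, cst_mul]
  congr 1
  rw [Matrix.trace_mul_comm, mul_assoc]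

theorem D_WG (s : Fin m × Fin m) (W : Matrix (Fin m) (Fin m) k) :
    pderiv s (cst W * genMat k m).trace = C (W * E k m s).trace := by
  rw [trace_D, map_mul_D, cst_D, zero_mul, zero_add, genMat_D, ← cst_mul]
  simp only [Matrix.trace, Matrix.diag_apply, cst, Matrix.map_apply, map_sum]

theorem D_three (s : Fin m × Fin m) (f : PM k m) : pderiv s (3 * f) = 3 * pderiv s f := by
  rw [Derivation.leibniz]
  have : pderiv s (3 : PM k m) = 0 := by
    have := (pderiv (R := k) s).map_natCast 3
    simpa using this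
  rw [this]
  simp

theorem dF2 (s s' : Fin m × Fin m) :
    pderiv s (pderiv s' (trCube k m)) =
      3 * (cst (E k m s' * E k m s + E k m s * E k m s') * genMat k m).trace := by
  rw [dF1, D_three, D_PGG]

theorem dF3 (s s' s'' : Fin m × Fin m) : ∃ c : k,
    pderiv s (pderiv s' (pderiv s'' (trCube k m))) = C c := by
  refine ⟨3 * ((E k m s'' * E k m s' + E k m s' * E k m s'') * E k m s).trace, ?_⟩
  rw [dF2, D_three, D_WG, C_mul]
  congr 1

theorem diffOp_const (g : PM k m) (c : k) : ∃ c' : k, diffOp k _ g (C c) = C c' := by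
  induction g using MvPolynomial.induction_on with
  | C a =>
    refine ⟨a * c, ?_⟩
    have : diffOp k (Fin m × Fin m) (C a) = algebraMap k _ a := (diffOp k _).commutes a
    rw [this, Module.algebraMap_end_apply, smul_eq_C_mul, C_mul]
  | add p q hp hq =>
    obtain ⟨c1, h1⟩ := hp
    obtain ⟨c2, h2⟩ := hq
    exact ⟨c1 + c2, by rw [map_add, LinearMap.add_apply, h1, h2, C_add]⟩
  | mul_X p n hp =>
    refine ⟨0, ?_⟩
    rw [map_mul, Module.End.mul_apply, diffOp_X, pderiv_C, map_zero, C_0]

theorem diffOp_C (r : k) (F : PM k m) : diffOp k _ (C r) F = C r * F := by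
  have : diffOp k (Fin m × Fin m) (C r) = algebraMap k _ r := (diffOp k _).commutes r
  rw [this, Module.algebraMap_end_apply, smul_eq_C_mul]

end deriv

section phi

/-- the map to `JM k m` -/
noncomputable def phi (k : Type u) [Field k] (m : ℕ) : PM k m →ₐ[k] JM k m :=
  MvPolynomial.aeval (xg k m)

theorem phi_X (s : Fin m × Fin m) : phi k m (X s) = xg k m s := by
  simp [phi]

theorem phi_C (r : k) : phi k m (C r) = r • (1 : JM k m) := by
  rw [← Algebra.algebraMap_eq_smul_one]
  exact (phi k m).commutes r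

theorem phi_surjective (h2 : (2 : k) ≠ 0) : Function.Surjective (phi k m) := by
  have h : (phi k m).range = ⊤ := by
    rw [phi, ← Algebra.adjoin_range_eq_range_aeval, adjoin_xg h2]
  intro a
  have ha : a ∈ (phi k m).range := by rw [h]; trivial
  exact ha

theorem finsupp_sub_single {σ : Type} {α : σ →₀ ℕ} (h : α ≠ 0) :
    ∃ (s : σ) (β : σ →₀ ℕ), α = β + Finsupp.single s 1 := by
  classical
  obtain ⟨s, hs⟩ := Finsupp.ne_iff.mp h
  refine ⟨s, α - Finsupp.single s 1, ?_⟩
  ext t
  by_cases ht : t = s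
  · subst ht
    have : α t ≠ 0 := hs
    simp only [Finsupp.add_apply, Finsupp.tsub_apply, Finsupp.single_eq_same]
    omega
  · simp [Ne.symm ht]

/-- induction on polynomials, distinguishing monomials of degree at most two -/
theorem induction_low {σ : Type} {Q : MvPolynomial σ k → Prop}
    (h0 : ∀ r, Q (C r)) (h1 : ∀ r s, Q (C r * X s)) (h2 : ∀ r s s', Q (C r * X s * X s'))
    (h3 : ∀ g s s' s'', Q (g * X s * X s' * X s'')) (hadd : ∀ f g, Q f → Q g → Q (f + g))
    (f : MvPolynomial σ k) : Q f := by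
  induction f using MvPolynomial.induction_on' with
  | monomial a r =>
    by_cases ha : a = 0
    · subst ha
      exact h0 r
    obtain ⟨s, b, rfl⟩ := finsupp_sub_single ha
    rw [monomial_add_single, pow_one]
    by_cases hb : b = 0
    · subst hb
      exact h1 r s
    obtain ⟨s', c, rfl⟩ := finsupp_sub_single hb
    rw [monomial_add_single, pow_one]
    by_cases hc : c = 0
    · subst hc
      exact h2 r s' s
    obtain ⟨s'', d, rfl⟩ := finsupp_sub_single hc
    rw [monomial_add_single, pow_one]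
    exact h3 _ _ _ _
  | add f g hf hg => exact hadd f g hf hg

/-- the first two parts of the expansion -/
theorem diffOp_expand (f : PM k m) : ∃ c : k, diffOp k _ f (trCube k m) =
    C (phi k m f).1 * trCube k m +
      3 * (cst (phi k m f).2.1 * genMat k m * genMat k m).trace +
      3 * (cst (phi k m f).2.2 * genMat k m).trace + C c := by
  induction f using induction_low with
  | h0 r =>
    refine ⟨0, ?_⟩
    rw [diffOp_C, phi_C]
    simp
  | h1 r s =>
    refine ⟨0, ?_⟩
    rw [map_mul, Module.End.mul_apply, diffOp_X, diffOp_C, dF1, map_mul, phi_C, phi_X,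
      smul_mul_assoc, one_mul]
    simp only [JM.smul_fst, JM.smul_snd1, JM.smul_snd2, xg, JM.ofV_fst, JM.ofV_snd1, JM.ofV_snd2,
      cst_smul, smul_zero, cst_zero, mul_zero, C_0, zero_mul, Matrix.trace_zero, add_zero, zero_add,
      Matrix.smul_mul, Matrix.trace_smul, smul_eq_mul]
    ring
  | h2 r s s' =>
    refine ⟨0, ?_⟩
    rw [map_mul, map_mul, Module.End.mul_apply, Module.End.mul_apply, diffOp_X, diffOp_X, diffOp_C,
      dF2, map_mul, map_mul, phi_C, phi_X, phi_X, smul_mul_assoc, one_mul, smul_mul_assoc, xg, xg,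
      JM.ofV_mul]
    simp only [JM.smul_fst, JM.smul_snd1, JM.smul_snd2,
      cst_smul, smul_zero, cst_zero, mul_zero, C_0, zero_mul, Matrix.trace_zero, add_zero, zero_add,
      Matrix.smul_mul, Matrix.trace_smul, smul_eq_mul]
    rw [add_comm (E k m s' * E k m s)]
    ring
  | h3 g s s' s'' =>
    obtain ⟨c, hc⟩ := dF3 (k := k) s s' s''
    obtain ⟨c', hc'⟩ := diffOp_const g c
    refine ⟨c', ?_⟩
    rw [map_mul, map_mul, map_mul, Module.End.mul_apply, Module.End.mul_apply,
      Module.End.mul_apply, diffOp_X, diffOp_X, diffOp_X, hc, hc', map_mul, map_mul, map_mul,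
      phi_X, phi_X, phi_X, mul_assoc, mul_assoc, ← mul_assoc (xg k m s), xg_mul3, mul_zero]
    simp
  | hadd f g hf hg =>
    obtain ⟨c, hc⟩ := hf
    obtain ⟨c', hc'⟩ := hg
    refine ⟨c + c', ?_⟩
    rw [map_add, LinearMap.add_apply, hc, hc', map_add, JM.add_fst, JM.add_snd1, JM.add_snd2,
      cst_add, cst_add, C_add, C_add]
    simp only [add_mul, Matrix.trace_add, mul_add]
    ring

end phi

section kernel

/-- evaluation at `t • Y` -/
theorem eval_genMat (t : k) (Y : Matrix (Fin m) (Fin m) k) :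
    (genMat k m).map (eval fun s => t * Y s.1 s.2) = t • Y := by
  ext1 i j
  simp [genMat]

theorem eval_cst (t : k) (Y P : Matrix (Fin m) (Fin m) k) :
    (cst P).map (eval fun s => t * Y s.1 s.2) = P := by
  ext1 i j
  simp

theorem eval_trace (v : Fin m × Fin m → k) (A : Matrix (Fin m) (Fin m) (PM k m)) :
    eval v A.trace = (A.map (eval v)).trace := by
  simp [Matrix.trace]

theorem eval_mul (v : Fin m × Fin m → k) (A B : Matrix (Fin m) (Fin m) (PM k m)) :
    (A * B).map (eval v) = A.map (eval v) * B.map (eval v) := Matrix.map_mul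

theorem cubic_zero [Infinite k] {a b c d : k} (h : ∀ t : k, a * t ^ 3 + b * t ^ 2 + c * t + d = 0) :
    a = 0 ∧ b = 0 ∧ c = 0 := by
  have h1 : (Polynomial.C a * Polynomial.X ^ 3 + Polynomial.C b * Polynomial.X ^ 2 +
      Polynomial.C c * Polynomial.X + Polynomial.C d : Polynomial k) = 0 := by
    apply Polynomial.funext
    intro t
    simp only [Polynomial.eval_add, Polynomial.eval_mul, Polynomial.eval_C, Polynomial.eval_pow,
      Polynomial.eval_X, Polynomial.eval_zero]
    exact h t
  refine ⟨?_, ?_, ?_⟩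
  · have := congrArg (fun p => Polynomial.coeff p 3) h1
    simpa [Polynomial.coeff_X, Polynomial.coeff_C] using this
  · have := congrArg (fun p => Polynomial.coeff p 2) h1
    simpa [Polynomial.coeff_X, Polynomial.coeff_C] using this
  · have := congrArg (fun p => Polynomial.coeff p 1) h1
    simpa [Polynomial.coeff_X, Polynomial.coeff_C] using this

theorem eq_zero_of_trace {P : Matrix (Fin m) (Fin m) k}
    (h : ∀ Y : Matrix (Fin m) (Fin m) k, (P * Y).trace = 0) : P = 0 := by
  ext i j
  have h1 := h (Matrix.single j i 1)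
  rw [Matrix.trace_mul_comm] at h1
  simpa [Matrix.trace, Matrix.mul_apply, Matrix.single_apply, Finset.sum_ite_eq,
    ite_and] using h1

/-- apolar polynomials are in the kernel -/
theorem phi_eq_zero_of_apolar [Infinite k] (h2 : (2 : k) ≠ 0) (h3 : (3 : k) ≠ 0) (hm : 1 ≤ m)
    {f : PM k m} (hf : diffOp k _ f (trCube k m) = 0) : phi k m f = 0 := by
  obtain ⟨c, hc⟩ := diffOp_expand f
  rw [hf] at hc
  have key : ∀ Y : Matrix (Fin m) (Fin m) k, (phi k m f).1 * (Y * Y * Y).trace = 0 ∧
      3 * ((phi k m f).2.1 * Y * Y).trace = 0 ∧ 3 * ((phi k m f).2.2 * Y).trace = 0 := by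
    intro Y
    refine cubic_zero (d := c) fun t => ?_
    have h1 := congrArg (eval fun s => t * Y s.1 s.2) hc
    simp only [map_zero, map_add, map_mul, eval_C, trCube, eval_trace, eval_mul, eval_genMat,
      eval_cst, Matrix.smul_mul, Matrix.mul_smul, Matrix.trace_smul, smul_eq_mul, map_ofNat] at h1
    rw [h1]
    ring
  have hW : (phi k m f).2.2 = 0 := by
    apply eq_zero_of_trace
    intro Y
    exact (mul_eq_zero.mp (key Y).2.2).resolve_left h3
  have ha : (phi k m f).1 = 0 := by
    have h1 := (key (Matrix.single ⟨0, hm⟩ ⟨0, hm⟩ 1)).1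
    simpa [Matrix.single_mul_single_same, Matrix.trace_single_eq_same] using h1
  have hP : (phi k m f).2.1 = 0 := by
    apply eq_zero_of_trace
    have hq : ∀ Y : Matrix (Fin m) (Fin m) k, ((phi k m f).2.1 * Y * Y).trace = 0 := fun Y =>
      (mul_eq_zero.mp (key Y).2.1).resolve_left h3
    intro Y
    have e1 := hq (Y + 1)
    have e2 := hq Y
    have e3 := hq 1
    simp only [mul_add, add_mul, mul_one, Matrix.trace_add] at e1 e3
    rw [e2, e3] at e1
    have e4 : 2 * ((phi k m f).2.1 * Y).trace = 0 := by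
      rw [← e1]; ring
    exact (mul_eq_zero.mp e4).resolve_left h2
  exact JM.ext' ha hP hW

/-- the ideal defining `Abar` -/
noncomputable abbrev JJ (k : Type u) [Field k] (m : ℕ) : Ideal (PM k m) :=
  apolarIdeal (trCube k m) ⊔ (Ideal.span (Set.range MvPolynomial.X)) ^ 3

theorem phi_cube {f : PM k m} (hf : f ∈ (Ideal.span (Set.range (MvPolynomial.X (R := k)
    (σ := Fin m × Fin m)))) ^ 3) : phi k m f = 0 := by
  have h1 : (Ideal.span (Set.range (MvPolynomial.X (R := k) (σ := Fin m × Fin m)))) ≤
      Ideal.comap (phi k m) (Ideal.span (Set.range (xg k m))) := by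
    rw [Ideal.span_le]
    rintro _ ⟨s, rfl⟩
    show phi k m (X s) ∈ Ideal.span (Set.range (xg k m))
    rw [phi_X]
    exact Ideal.subset_span ⟨s, rfl⟩
  have h2 : (Ideal.span (Set.range (xg k m))) ^ 3 = ⊥ := by
    rw [pow_succ, pow_two, Ideal.span_mul_span', Ideal.span_mul_span', Ideal.span_eq_bot]
    rintro _ ⟨_, ⟨_, ⟨s, rfl⟩, _, ⟨s', rfl⟩, rfl⟩, _, ⟨s'', rfl⟩, rfl⟩
    exact xg_mul3 s s' s''
  have h3 : f ∈ Ideal.comap (phi k m) ((Ideal.span (Set.range (xg k m))) ^ 3) :=
    Ideal.le_comap_pow _ _ (Ideal.pow_right_mono h1 3 hf)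
  rw [h2] at h3
  exact h3

/-- normal form -/
noncomputable def red (k : Type u) [Field k] (m : ℕ) (a : JM k m) : PM k m :=
  C a.1 + ∑ s, C (a.2.1 s.1 s.2) * X s +
    C (2 : k)⁻¹ * ∑ s, C (a.2.2 s.1 s.2) * X s * ∑ i, X (i, i)

theorem red_add (a b : JM k m) : red k m (a + b) = red k m a + red k m b := by
  simp only [red, JM.add_fst, JM.add_snd1, JM.add_snd2, C_add, Matrix.add_apply, add_mul,
    Finset.sum_add_distrib]
  ring

theorem sum_C_X (A : Matrix (Fin m) (Fin m) k) (r : k) :
    ∑ s : Fin m × Fin m, (C ((r • A) s.1 s.2) : PM k m) * X s =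
      C r * ∑ s : Fin m × Fin m, C (A s.1 s.2) * X s := by
  rw [Finset.mul_sum]
  refine Finset.sum_congr rfl fun s _ => ?_
  rw [Matrix.smul_apply, smul_eq_mul, C_mul]
  ring

theorem sum_C_E (s₀ : Fin m × Fin m) :
    ∑ s : Fin m × Fin m, (C ((E k m s₀) s.1 s.2) : PM k m) * X s = X s₀ := by
  rw [Finset.sum_eq_single s₀]
  · simp [E]
  · intro s _ hs
    have : (E k m s₀) s.1 s.2 = 0 := by
      simp only [E, Matrix.single_apply]
      rw [if_neg]
      rintro ⟨h1, h2⟩
      exact hs (Prod.ext h1.symm h2.symm)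
    rw [this, C_0, zero_mul]
  · intro hh; exact absurd (Finset.mem_univ _) hh

theorem diffOp_lin (W : Matrix (Fin m) (Fin m) k) :
    diffOp k _ (∑ s : Fin m × Fin m, C (W s.1 s.2) * X s * ∑ i, X (i, i)) (trCube k m) =
      3 * (cst ((2 : k) • W) * genMat k m).trace := by
  have h1 : ∀ s : Fin m × Fin m, diffOp k _ (C (W s.1 s.2) * X s * ∑ i, X (i, i)) (trCube k m) =
      3 * (cst ((2 : k) • (W s.1 s.2 • E k m s)) * genMat k m).trace := by
    intro s
    rw [Finset.mul_sum, map_sum, LinearMap.sum_apply]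
    have h2 : ∀ i : Fin m, diffOp k _ (C (W s.1 s.2) * X s * X (i, i)) (trCube k m) =
        C (W s.1 s.2) * (3 * (cst (E k m (i, i) * E k m s + E k m s * E k m (i, i)) *
          genMat k m).trace) := by
      intro i
      rw [map_mul, map_mul, Module.End.mul_apply, Module.End.mul_apply, diffOp_X, diffOp_X,
        diffOp_C, dF2]
    simp only [h2]
    rw [← Finset.mul_sum, ← Finset.mul_sum, ← Matrix.trace_sum, ← Finset.sum_mul]
    have h3 : ∑ i : Fin m, cst (E k m (i, i) * E k m s + E k m s * E k m (i, i)) =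
        cst ((2 : k) • E k m s) := by
      have h4 : ∑ i : Fin m, E k m (i, i) = 1 := by
        ext a b
        rw [Matrix.sum_apply]
        simp [E, Matrix.single_apply, Matrix.one_apply, ite_and]
      have h5 : (2 : k) • E k m s = ∑ i : Fin m, (E k m (i, i) * E k m s + E k m s * E k m (i, i)) := by
        rw [Finset.sum_add_distrib, ← Finset.sum_mul, ← Finset.mul_sum, h4, one_mul, mul_one,
          two_smul]
      rw [h5, cst_sum]
    rw [h3, smul_comm (2 : k), cst_smul (W s.1 s.2), Matrix.smul_mul, Matrix.trace_smul, smul_eq_mul]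
    ring
  rw [map_sum, LinearMap.sum_apply, Finset.sum_congr rfl fun s _ => h1 s, ← Finset.mul_sum,
    ← Matrix.trace_sum, ← Finset.sum_mul]
  congr 3
  have h6 : (2 : k) • W = ∑ s : Fin m × Fin m, (2 : k) • (W s.1 s.2 • E k m s) := by
    conv_lhs => rw [Matrix.matrix_eq_sum_single W]
    rw [← Finset.smul_sum, Fintype.sum_prod_type]
    congr 1
    refine Finset.sum_congr rfl fun i _ => Finset.sum_congr rfl fun j _ => ?_
    simp [E]
  rw [h6, cst_sum]

/-- modulo the ideal every polynomial is congruent to its normal form -/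
theorem sub_red_mem (h2 : (2 : k) ≠ 0) (f : PM k m) : f - red k m (phi k m f) ∈ JJ k m := by
  induction f using induction_low with
  | h0 r =>
    have : red k m (phi k m (C r)) = C r := by
      rw [phi_C]
      simp [red]
    rw [this, sub_self]
    exact Ideal.zero_mem _
  | h1 r s =>
    have : red k m (phi k m (C r * X s)) = C r * X s := by
      rw [map_mul, phi_C, phi_X, smul_mul_assoc, one_mul, red]
      simp only [JM.smul_fst, JM.smul_snd1, JM.smul_snd2, xg, JM.ofV_fst, JM.ofV_snd1,
        JM.ofV_snd2, mul_zero, C_0, smul_zero, Matrix.zero_apply, zero_mul, Finset.sum_const_zero,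
        add_zero, zero_add]
      rw [sum_C_X, sum_C_E]
    rw [this, sub_self]
    exact Ideal.zero_mem _
  | h2 r s s' =>
    apply Ideal.mem_sup_left
    rw [mem_apolarIdeal, map_sub, LinearMap.sub_apply, sub_eq_zero]
    have h3 : phi k m (C r * X s * X s') =
        ((0 : k), (0 : Matrix (Fin m) (Fin m) k), r • (E k m s * E k m s' + E k m s' * E k m s)) := by
      rw [map_mul, map_mul, phi_C, phi_X, phi_X, smul_mul_assoc, one_mul, smul_mul_assoc, xg, xg,
        JM.ofV_mul]
      apply JM.ext'
      · rw [JM.smul_fst]; simp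
      · rw [JM.smul_snd1]; simp
      · rw [JM.smul_snd2]
    rw [h3]
    have h4 : red k m (((0 : k), (0 : Matrix (Fin m) (Fin m) k),
        r • (E k m s * E k m s' + E k m s' * E k m s)) : JM k m) =
        C (2 : k)⁻¹ * ∑ t : Fin m × Fin m,
          C ((r • (E k m s * E k m s' + E k m s' * E k m s)) t.1 t.2) * X t * ∑ i, X (i, i) := by
      simp [red]
    rw [h4, map_mul (diffOp k _) (C (2 : k)⁻¹), Module.End.mul_apply, diffOp_lin, diffOp_C, map_mul,
      map_mul, Module.End.mul_apply, Module.End.mul_apply, diffOp_X, diffOp_X, diffOp_C, dF2,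
      cst_smul, cst_smul, Matrix.smul_mul, Matrix.smul_mul, Matrix.trace_smul, Matrix.trace_smul,
      smul_eq_mul, smul_eq_mul, add_comm (E k m s' * E k m s)]
    have h5 : (C (2 : k)⁻¹ : PM k m) * C 2 = 1 := by
      rw [← C_mul, inv_mul_cancel₀ h2, C_1]
    linear_combination (-(3 * C r * (cst (E k m s * E k m s' + E k m s' * E k m s) *
      genMat k m).trace)) * h5
  | h3 g s s' s'' =>
    have h4 : phi k m (g * X s * X s' * X s'') = 0 := by
      rw [map_mul, map_mul, map_mul,
      phi_X, phi_X, phi_X, mul_assoc, mul_assoc, ← mul_assoc (xg k m s), xg_mul3, mul_zero]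
    have h5 : red k m (0 : JM k m) = 0 := by simp [red]
    rw [h4, h5, sub_zero]
    apply Ideal.mem_sup_right
    have h6 : g * X s * X s' * X s'' = g * (X s * X s' * X s'') := by ring
    rw [h6]
    apply Ideal.mul_mem_left
    rw [pow_succ, pow_two]
    exact Ideal.mul_mem_mul (Ideal.mul_mem_mul (Ideal.subset_span ⟨s, rfl⟩)
      (Ideal.subset_span ⟨s', rfl⟩)) (Ideal.subset_span ⟨s'', rfl⟩)
  | hadd f g hf hg =>
    rw [map_add, red_add]
    have : f + g - (red k m (phi k m f) + red k m (phi k m g)) =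
        (f - red k m (phi k m f)) + (g - red k m (phi k m g)) := by ring
    rw [this]
    exact Ideal.add_mem _ hf hg

theorem ker_phi [Infinite k] (h2 : (2 : k) ≠ 0) (h3 : (3 : k) ≠ 0) (hm : 1 ≤ m) :
    JJ k m = RingHom.ker (phi k m) := by
  apply le_antisymm
  · rw [sup_le_iff]
    constructor
    · intro f hf
      exact phi_eq_zero_of_apolar h2 h3 hm hf
    · intro f hf
      exact phi_cube hf
  · intro f hf
    have h4 := sub_red_mem h2 f
    have h5 : phi k m f = 0 := hf
    have h6 : red k m (0 : JM k m) = 0 := by simp [red]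
    rw [h5, h6, sub_zero] at h4
    exact h4

/-- `Ā_m` is isomorphic to `JM k m`. -/
noncomputable def abarEquiv [Infinite k] (h2 : (2 : k) ≠ 0) (h3 : (3 : k) ≠ 0) (hm : 1 ≤ m) :
    Abar k m ≃ₐ[k] JM k m :=
  (Ideal.quotientEquivAlgOfEq k (ker_phi h2 h3 hm)).trans
    (Ideal.quotientKerAlgEquivOfSurjective (phi_surjective h2))

end kernel

end Pool.Agent.H14.MM
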