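import Mathlib

/-!
# Apolar algebras and the algebras of the cubics `tr (X ^ 3)`
-/

open MvPolynomial

namespace Pool.Agent.H14.MM

universe u

section diffOp

variable (k : Type u) [Field k] (σ : Type)

variable {σ} in
/-- Partial derivatives commute. -/
theorem pderiv_pderiv_comm (i j : σ) (f : MvPolynomial σ k) :
    pderiv i (pderiv j f) = pderiv j (pderiv i f) := by
  classical
  have h : ⁅(pderiv i : Derivation k (MvPolynomial σ k) (MvPolynomial σ k)),
      (pderiv j : Derivation k (MvPolynomial σ k) (MvPolynomial σ k))⁆ = 0 := by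
    apply derivation_ext
    intro s
    rw [Derivation.commutator_apply, pderiv_X, pderiv_X, Pi.single_apply, Pi.single_apply]
    split_ifs <;> simp
  have h2 := congrArg (fun D => D f) h
  simp only [Derivation.commutator_apply, Derivation.coe_zero, Pi.zero_apply] at h2
  exact sub_eq_zero.mp h2

/-- The algebra of constant coefficient differential operators. -/
noncomputable abbrev diffAlg : Subalgebra k (Module.End k (MvPolynomial σ k)) :=
  Algebra.adjoin k (Set.range fun s : σ =>
    ((pderiv s : Derivation k (MvPolynomial σ k) (MvPolynomial σ k)) : Module.End k _))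

open scoped IsMulCommutative in
/-- The action of polynomials as constant coefficient differential operators: the algebra
homomorphism `f ↦ f(∂)` with `X s ↦ ∂ / ∂ X s`. -/
noncomputable def diffOp : MvPolynomial σ k →ₐ[k] Module.End k (MvPolynomial σ k) :=
  have : IsMulCommutative (diffAlg k σ) := Algebra.isMulCommutative_adjoin k (by
    rintro _ ⟨i, rfl⟩ _ ⟨j, rfl⟩
    refine LinearMap.ext fun f => ?_
    exact pderiv_pderiv_comm k i j f)
  (diffAlg k σ).val.comp (MvPolynomial.aeval fun s : σ =>
    (⟨_, Algebra.subset_adjoin ⟨s, rfl⟩⟩ : diffAlg k σ))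

theorem diffOp_X (s : σ) (F : MvPolynomial σ k) :
    diffOp k σ (MvPolynomial.X s) F = pderiv s F := by
  simp only [diffOp, AlgHom.comp_apply, MvPolynomial.aeval_X]
  rfl

end diffOp

section apolar

variable {k : Type u} [Field k] {σ : Type}

/-- The apolar ideal of a polynomial `F`: all polynomials `f` with `f(∂) F = 0`. -/
noncomputable def apolarIdeal (F : MvPolynomial σ k) : Ideal (MvPolynomial σ k) where
  carrier := {f | diffOp k σ f F = 0}
  add_mem' := by
    intro f g hf hg
    simp only [Set.mem_ofPred_eq] at hf hg ⊢
    rw [map_add, LinearMap.add_apply, hf, hg, add_zero]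
  zero_mem' := by
    simp only [Set.mem_ofPred_eq]
    rw [map_zero, LinearMap.zero_apply]
  smul_mem' := by
    intro c f hf
    simp only [Set.mem_ofPred_eq] at hf ⊢
    rw [smul_eq_mul, map_mul, Module.End.mul_apply, hf, map_zero]

theorem mem_apolarIdeal {F f : MvPolynomial σ k} :
    f ∈ apolarIdeal F ↔ diffOp k σ f F = 0 := Iff.rfl

end apolar

section cubic

/-- The generic `m × m` matrix. -/
noncomputable def genMat (k : Type u) [Field k] (m : ℕ) :
    Matrix (Fin m) (Fin m) (MvPolynomial (Fin m × Fin m) k) :=
  Matrix.of fun i j => MvPolynomial.X (i, j)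

/-- The cubic `tr (X ^ 3)` in the entries of the generic `m × m` matrix `X`. -/
noncomputable def trCube (k : Type u) [Field k] (m : ℕ) : MvPolynomial (Fin m × Fin m) k :=
  (genMat k m * genMat k m * genMat k m).trace

/-- The algebra `Ā_m = A_m / 𝔪 ^ 3`, where `A_m` is the apolar algebra of the cubic `tr (X ^ 3)` and
`𝔪` is its maximal ideal (generated by the variables). -/
abbrev Abar (k : Type u) [Field k] (m : ℕ) : Type u :=
  MvPolynomial (Fin m × Fin m) k ⧸
    (apolarIdeal (trCube k m) ⊔ (Ideal.span (Set.range MvPolynomial.X)) ^ 3)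

end cubic

end Pool.Agent.H14.MM
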