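import Mathlib

/-!
# Rank of matrix multiplication and its exponent
-/

namespace Pool.Agent.H14.MM

/-- The product of two `m × m` matrices over `k` can be computed with `r` multiplications, i.e. the
matrix multiplication tensor `⟨m, m, m⟩` over `k` has rank at most `r`. -/
def HasMMRank (k : Type*) [Field k] (m r : ℕ) : Prop :=
  ∃ (f g : Fin r → Matrix (Fin m) (Fin m) k →ₗ[k] k) (C : Fin r → Matrix (Fin m) (Fin m) k),
    ∀ X Y : Matrix (Fin m) (Fin m) k, X * Y = ∑ i, (f i X * g i Y) • C i

/-- The rank of the matrix multiplication tensor `⟨m, m, m⟩` over `k`. -/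
noncomputable def mmRank (k : Type*) [Field k] (m : ℕ) : ℕ := sInf {r | HasMMRank k m r}

/-- The exponent `ω` of matrix multiplication over `k`: the infimum of all `τ` such that
`⟨m, m, m⟩` has rank `O(m ^ τ)`. -/
noncomputable def mmExponent (k : Type*) [Field k] : ℝ :=
  sInf {τ : ℝ | ∃ C : ℝ, ∀ m : ℕ, 1 ≤ m → (mmRank k m : ℝ) ≤ C * (m : ℝ) ^ τ}

end Pool.Agent.H14.MM
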