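import Pool.Agent.H14.MM.Apolar
import Pool.Agent.H15.Defect.Jordan

/-!
# The algebra `k ⊕ M_m ⊕ M_m` of helper15 is the algebra `Ā_m` of the problem file
-/

open Pool.Agent.H15.Defect

namespace Pool.Agent.H14.MM

universe u

variable {k : Type u} [Field k] {m : ℕ}

/-- The two models of `k ⊕ M_m ⊕ M_m` agree. -/
noncomputable def jmEquiv (k : Type u) [Field k] (m : ℕ) : JM k m ≃ₐ[k] MatAlg k m where
  toFun a := (a.1, a.2.1, a.2.2)
  invFun a := (a.1, a.2.1, a.2.2)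
  left_inv _ := rfl
  right_inv _ := rfl
  map_mul' _ _ := rfl
  map_add' _ _ := rfl
  commutes' _ := rfl

theorem abar_equiv [Infinite k] (h2 : (2 : k) ≠ 0) (h3 : (3 : k) ≠ 0) (hm : 1 ≤ m) :
    Nonempty (Abar k m ≃ₐ[k] MatAlg k m) :=
  ⟨(abarEquiv h2 h3 hm).trans (jmEquiv k m)⟩

end Pool.Agent.H14.MM
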