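import Pool.Agent.H15.Defect.DefNat
import Pool.Agent.H14.MM.Merge

/-!
# Powers of the schemes of the algebras `k ⊕ M_m ⊕ M_m` and the exponent of matrix multiplication:
# bounds and their consequences
-/

open TensorProduct Module Filter Topology

namespace Pool.Agent.H14.MM.Exponent

open Pool.Agent.H12.Defect Pool.Agent.H15.Defect Pool.Agent.H14.MM

universe u

/-- The `n`-th power of the algebra `k ⊕ M_m ⊕ M_m`: the coordinate ring of `Γ_m^n`. -/
abbrev Pow (k : Type u) [Field k] (m n : ℕ) : Type u := ⨂[k] _ : Fin n, MatAlg k m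

section

variable {k : Type u} [Field k]

theorem finrank_pow (m n : ℕ) : finrank k (Pow k m n) = (2 * m ^ 2 + 1) ^ n := by
  let b := Module.finBasis k (MatAlg k m)
  rw [Module.finrank_eq_card_basis (Basis.piTensorProduct (fun _ : Fin n => b))]
  simp [finrank_matAlg]

theorem exists_dle (m n : ℕ) : ∃ N, Dle k (Pow k m n) N := by
  rcases Nat.eq_zero_or_pos m with rfl | hm
  · -- `M_0 = 0`, the algebra is `k`
    have h1 : Dle k (MatAlg k 0) 1 := by
      refine (dle_self k).of_surjective (Algebra.ofId k _) ?_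
      rintro ⟨a, x, z⟩
      refine ⟨a, ?_⟩
      rw [Algebra.ofId_apply, QA.algebraMap_eq]
      have hx : x = 0 := Subsingleton.elim _ _
      have hz : z = 0 := Subsingleton.elim _ _
      rw [hx, hz]
    exact ⟨_, h1.pow n⟩
  · exact ⟨_, dle_matAlg_pow hm (mm_cube m) n⟩

/-- the smallest degree of a smoothable scheme containing `Γ_m^n` -/
theorem upper {m n r : ℕ} (hm : 1 ≤ m) (h : MM k (Fin m) r) :
    (2 * m ^ 2 + 1) ^ n + (defect k (Pow k m n)).toNat ≤ (12 * r) ^ n := by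
  have := (defect_eq (dle_matAlg_pow hm h n)).2.2
  rwa [finrank_pow] at this

theorem lower [Infinite k] {m n q : ℕ} (hq : 1 ≤ q) (h3 : 3 * q ≤ m) :
    ((q : ℝ) ^ omega k) ^ n ≤ ((2 * m ^ 2 + 1) ^ n + (defect k (Pow k m n)).toNat : ℕ) := by
  obtain ⟨N, hN⟩ := exists_dle (k := k) m n
  have := rpow_le_of_dle (n := n) hq h3 (dle_defect hN)
  rwa [finrank_pow] at this

theorem upper_bound {ε : ℝ} (hε : 0 < ε) : ∃ C : ℝ, ∀ m n : ℕ, 1 ≤ m →
    ((2 * m ^ 2 + 1) ^ n + (defect k (Pow k m n)).toNat : ℕ) ≤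
      (C * (m : ℝ) ^ (omega k + ε)) ^ n := by
  obtain ⟨C, hC⟩ := exists_of_lt_omega (k := k) hε
  refine ⟨12 * C, fun m n hm => ?_⟩
  obtain ⟨r, hr, hr2⟩ := hC m hm
  have h1 : (((2 * m ^ 2 + 1) ^ n + (defect k (Pow k m n)).toNat : ℕ) : ℝ) ≤ (12 * r : ℝ) ^ n := by
    exact_mod_cast upper hm hr
  refine h1.trans (pow_le_pow_left₀ (by positivity) ?_ n)
  linarith

theorem lower_bound [Infinite k] (m n : ℕ) (hm : 1 ≤ m) :
    ((5 : ℝ) ^ (-omega k) * (m : ℝ) ^ omega k) ^ n ≤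
      ((2 * m ^ 2 + 1) ^ n + (defect k (Pow k m n)).toNat : ℕ) := by
  have hω := two_le_omega (k := k)
  have h0 : (5 : ℝ) ^ (-omega k) * (m : ℝ) ^ omega k = ((m : ℝ) / 5) ^ omega k := by
    rw [Real.div_rpow (Nat.cast_nonneg m) (by norm_num), Real.rpow_neg (by norm_num)]
    ring
  rw [h0]
  rcases Nat.lt_or_ge m 3 with h3 | h3
  · have h1 : (((m : ℝ) / 5) ^ omega k) ^ n ≤ 1 := by
      apply pow_le_one₀ (by positivity)
      apply Real.rpow_le_one (by positivity) _ (by linarith)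
      have : (m : ℝ) < 3 := by exact_mod_cast h3
      linarith
    refine h1.trans ?_
    have : 1 ≤ (2 * m ^ 2 + 1) ^ n + (defect k (Pow k m n)).toNat :=
      (Nat.one_le_pow _ _ (by positivity)).trans (Nat.le_add_right _ _)
    exact_mod_cast this
  · have h1 := lower (k := k) (m := m) (n := n) (q := m / 3) (by omega) (by omega)
    refine le_trans ?_ h1
    apply pow_le_pow_left₀ (by positivity)
    apply Real.rpow_le_rpow (by positivity) _ (by linarith)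
    have h2 : m ≤ 5 * (m / 3) := by omega
    have h4 : (m : ℝ) ≤ 5 * ((m / 3 : ℕ) : ℝ) := by exact_mod_cast h2
    linarith

/-- the ratio in the question -/
noncomputable def ratio (k : Type u) [Field k] (m : ℕ) (ε : ℝ) (n : ℕ) : ℝ :=
  (defect k (Pow k m n)).toNat / ((2 * m ^ 2 + 1 : ℕ) : ℝ) ^ ((1 + ε) * n)

theorem ratio_eq (m : ℕ) (ε : ℝ) (n : ℕ) : ratio k m ε n =
    (defect k (Pow k m n)).toNat / (((2 * m ^ 2 + 1 : ℕ) : ℝ) ^ (1 + ε)) ^ n := by
  rw [ratio, Real.rpow_mul (Nat.cast_nonneg _), Real.rpow_natCast]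

theorem tendsto_zero {ε : ℝ} (hε : omega k / 2 - 1 < ε) :
    ∃ m₀ : ℕ, ∀ m ≥ m₀, Tendsto (ratio k m ε) atTop (𝓝 0) := by
  set e : ℝ := 1 + ε - omega k / 2 with he
  have hepos : 0 < e := by rw [he]; linarith
  obtain ⟨C, hC⟩ := upper_bound (k := k) hepos
  have h1 : Tendsto (fun m : ℕ => ((m : ℝ)) ^ e) atTop atTop :=
    (tendsto_rpow_atTop hepos).comp tendsto_natCast_atTop_atTop
  obtain ⟨m₀, hm₀⟩ := ((h1.eventually_gt_atTop C).and (eventually_ge_atTop 1)).exists_forall_of_atTop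
  refine ⟨m₀, fun m hm => ?_⟩
  obtain ⟨hm1, hm2⟩ := hm₀ m hm
  have hmpos : (0 : ℝ) < m := by exact_mod_cast hm2
  set d : ℝ := ((2 * m ^ 2 + 1 : ℕ) : ℝ) with hd
  have hdpos : 0 < d := by rw [hd]; positivity
  have hε1 : 0 < 1 + ε := by have := two_le_omega (k := k); linarith
  have h2 : (m : ℝ) ^ (omega k + 2 * e) ≤ d ^ (1 + ε) := by
    have h3 : omega k + 2 * e = 2 * (1 + ε) := by rw [he]; ring
    rw [h3, Real.rpow_mul hmpos.le]
    apply Real.rpow_le_rpow (by positivity) _ hε1.le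
    rw [Real.rpow_two, hd]
    push_cast
    nlinarith
  have hC0 : 0 ≤ C * (m : ℝ) ^ (omega k + e) := by
    have := hC m 1 hm2
    simp only [pow_one] at this
    exact le_trans (Nat.cast_nonneg _) this
  set ρ : ℝ := C * (m : ℝ) ^ (omega k + e) / d ^ (1 + ε) with hρ
  have hρ0 : 0 ≤ ρ := div_nonneg hC0 (by positivity)
  have hρ1 : ρ < 1 := by
    rw [hρ, div_lt_one (by positivity)]
    refine lt_of_lt_of_le ?_ h2
    have h3 : omega k + 2 * e = e + (omega k + e) := by ring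
    rw [h3, Real.rpow_add hmpos e]
    exact mul_lt_mul_of_pos_right hm1 (by positivity)
  refine squeeze_zero (fun n => ?_) (fun n => ?_) (tendsto_pow_atTop_nhds_zero_of_lt_one hρ0 hρ1)
  · rw [ratio_eq]; positivity
  · rw [ratio_eq, hρ, div_pow]
    apply div_le_div_of_nonneg_right _ (by positivity)
    refine le_trans ?_ (hC m n hm2)
    exact_mod_cast Nat.le_add_left _ _

theorem tendsto_top [Infinite k] {ε : ℝ} (hε0 : 0 ≤ ε) (hε : ε < omega k / 2 - 1) :
    ∃ m₀ : ℕ, ∀ m ≥ m₀, Tendsto (ratio k m ε) atTop atTop := by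
  set e : ℝ := omega k / 2 - 1 - ε with he
  have hepos : 0 < e := by rw [he]; linarith
  have h1 : Tendsto (fun m : ℕ => ((m : ℝ)) ^ (2 * e)) atTop atTop :=
    (tendsto_rpow_atTop (by positivity)).comp tendsto_natCast_atTop_atTop
  obtain ⟨m₀, hm₀⟩ := ((h1.eventually_ge_atTop (2 * 5 ^ omega k * 3 ^ (1 + ε))).and
    (eventually_ge_atTop 1)).exists_forall_of_atTop
  refine ⟨m₀, fun m hm => ?_⟩
  obtain ⟨hm1, hm2⟩ := hm₀ m hm
  have hmpos : (0 : ℝ) < m := by exact_mod_cast hm2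
  have hm1' : (1 : ℝ) ≤ m := by exact_mod_cast hm2
  set d : ℝ := ((2 * m ^ 2 + 1 : ℕ) : ℝ) with hd
  have hd1 : 1 ≤ d := by
    rw [hd]; exact_mod_cast Nat.le_add_left _ _
  have hε1 : 0 ≤ 1 + ε := by linarith
  -- main comparison
  have h2 : 2 * d ^ (1 + ε) ≤ (5 : ℝ) ^ (-omega k) * (m : ℝ) ^ omega k := by
    have h3 : d ^ (1 + ε) ≤ 3 ^ (1 + ε) * (m : ℝ) ^ (omega k - 2 * e) := by
      have h4 : omega k - 2 * e = 2 * (1 + ε) := by rw [he]; ring
      rw [h4, Real.rpow_mul hmpos.le, ← Real.mul_rpow (by norm_num) (by positivity)]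
      apply Real.rpow_le_rpow (by linarith) _ hε1
      rw [Real.rpow_two, hd]
      push_cast
      nlinarith
    have h5 : (m : ℝ) ^ omega k = (m : ℝ) ^ (2 * e) * (m : ℝ) ^ (omega k - 2 * e) := by
      rw [← Real.rpow_add hmpos]; congr 1; ring
    rw [h5]
    calc 2 * d ^ (1 + ε) ≤ 2 * (3 ^ (1 + ε) * (m : ℝ) ^ (omega k - 2 * e)) := by linarith
      _ = (5 : ℝ) ^ (-omega k) * ((2 * 5 ^ omega k * 3 ^ (1 + ε)) *
            (m : ℝ) ^ (omega k - 2 * e)) := by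
          rw [Real.rpow_neg (by norm_num)]
          field_simp
      _ ≤ _ := by
          apply mul_le_mul_of_nonneg_left _ (by positivity)
          exact mul_le_mul_of_nonneg_right hm1 (by positivity)
  have hdε : d ≤ d ^ (1 + ε) := by
    calc d = d ^ (1 : ℝ) := (Real.rpow_one d).symm
      _ ≤ _ := Real.rpow_le_rpow_of_exponent_le hd1 (by linarith)
  have hlow : ∀ n, (2 : ℝ) ^ n - 1 ≤ ratio k m ε n := by
    intro n
    rw [ratio_eq, le_div_iff₀ (by positivity), sub_mul, one_mul, ← mul_pow]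
    have h6 := lower_bound (k := k) m n hm2
    push_cast at h6
    have h7 : (2 * d ^ (1 + ε)) ^ n ≤ ((5 : ℝ) ^ (-omega k) * (m : ℝ) ^ omega k) ^ n :=
      pow_le_pow_left₀ (by positivity) h2 n
    have h8 : d ^ n ≤ (d ^ (1 + ε)) ^ n := pow_le_pow_left₀ (by linarith) hdε n
    have h9 : d ^ n = (2 * (m : ℝ) ^ 2 + 1) ^ n := by rw [hd]; push_cast; rfl
    rw [← hd]
    linarith
  refine tendsto_atTop_mono hlow ?_
  exact tendsto_atTop_add_const_right _ _ (tendsto_pow_atTop_atTop_of_one_lt (by norm_num))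

end

/-- Consequences of the two bounds: for all large `m` the ratio `δ(Γ_m^n) / d_m^((1+ε)n)` tends to
`0` if `ε > ω/2 - 1` and to `∞` if `0 ≤ ε < ω/2 - 1`; `ω = 2` if and only if, for every `ε > 0`, it
tends to `0` for all large `m`; without any assumption it tends to `0` for all large `m` when
`ε > (log₂ 7)/2 - 1`. -/
theorem consequences (k : Type u) [Field k] [IsAlgClosed k] :
    (∀ ε : ℝ, omega k / 2 - 1 < ε → ∃ m₀ : ℕ, ∀ m ≥ m₀,
      Tendsto (fun n : ℕ => ((defect k (⨂[k] _ : Fin n, MatAlg k m)).toNat : ℝ) /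
        ((2 * m ^ 2 + 1 : ℕ) : ℝ) ^ ((1 + ε) * n)) atTop (𝓝 0)) ∧
    (∀ ε : ℝ, 0 ≤ ε → ε < omega k / 2 - 1 → ∃ m₀ : ℕ, ∀ m ≥ m₀,
      Tendsto (fun n : ℕ => ((defect k (⨂[k] _ : Fin n, MatAlg k m)).toNat : ℝ) /
        ((2 * m ^ 2 + 1 : ℕ) : ℝ) ^ ((1 + ε) * n)) atTop atTop) ∧
    (omega k = 2 ↔ ∀ ε : ℝ, 0 < ε → ∃ m₀ : ℕ, ∀ m ≥ m₀,
      Tendsto (fun n : ℕ => ((defect k (⨂[k] _ : Fin n, MatAlg k m)).toNat : ℝ) /
        ((2 * m ^ 2 + 1 : ℕ) : ℝ) ^ ((1 + ε) * n)) atTop (𝓝 0)) ∧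
    ∀ ε : ℝ, Real.log 7 / (2 * Real.log 2) - 1 < ε → ∃ m₀ : ℕ, ∀ m ≥ m₀,
      Tendsto (fun n : ℕ => ((defect k (⨂[k] _ : Fin n, MatAlg k m)).toNat : ℝ) /
        ((2 * m ^ 2 + 1 : ℕ) : ℝ) ^ ((1 + ε) * n)) atTop (𝓝 0) := by
  have : Infinite k := IsAlgClosed.instInfinite
  refine ⟨fun ε hε => tendsto_zero hε, fun ε h0 h1 => tendsto_top h0 h1,
    ⟨?_, ?_⟩, fun ε hε => tendsto_zero ?_⟩
  · intro hω ε hε
    exact tendsto_zero (by rw [hω]; linarith)
  · intro h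
    by_contra hne
    have hlt : 2 < omega k := lt_of_le_of_ne two_le_omega (Ne.symm hne)
    set ε : ℝ := (omega k / 2 - 1) / 2 with hε
    have h0 : 0 < ε := by rw [hε]; linarith
    obtain ⟨m₀, hm₀⟩ := h ε h0
    obtain ⟨m₁, hm₁⟩ := tendsto_top (k := k) h0.le (by rw [hε]; linarith)
    have h1 := hm₀ (max m₀ m₁) (le_max_left _ _)
    have h2 := hm₁ (max m₀ m₁) (le_max_right _ _)
    exact not_tendsto_nhds_of_tendsto_atTop h2 0 h1
  · have h1 := omega_le_log (k := k)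
    have h2 : Real.log 7 / (2 * Real.log 2) = Real.log 7 / Real.log 2 / 2 := by
      rw [div_div, mul_comm]
    rw [h2] at hε
    linarith

end Pool.Agent.H14.MM.Exponent
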