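import Pool.Agent.H14.MM.GrowthDefs
import Pool.Agent.H14.MM.Exponent
import Pool.Agent.H14.MM.UpperJM

/-!
# Growth of the smoothability defect of the powers of `JM k m`
-/

open TensorProduct Module Filter Topology
open scoped ENNReal

namespace Pool.Agent.H14.MM

open Pool.Agent.H12.Defect

universe u

variable {k : Type u} [Field k]

section lower

theorem lower_real [Infinite k] {m' m n : ℕ} (h : 3 * m' ≤ m) {δ : ℕ}
    (hδ : δ ∈ defects k (⨂[k] _ : Fin n, JM k m)) :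
    ((m' : ℝ) ^ (mmExponent k)) ^ n ≤ (1 + 2 * (m : ℝ) ^ 2) ^ n + δ := by
  have hω := two_le_mmExponent k
  have hd : (1 : ℝ) ≤ (1 + 2 * (m : ℝ) ^ 2) ^ n := by
    apply one_le_pow₀
    nlinarith [sq_nonneg (m : ℝ)]
  have hδ0 : (0 : ℝ) ≤ δ := by positivity
  rcases Nat.lt_or_ge m' 2 with hm' | hm'
  · have h1 : (m' : ℝ) ≤ 1 := by
      exact_mod_cast (by omega : m' ≤ 1)
    have h2 : (m' : ℝ) ^ (mmExponent k) ≤ 1 := Real.rpow_le_one (by positivity) h1 (by linarith)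
    have h3 : ((m' : ℝ) ^ (mmExponent k)) ^ n ≤ 1 := pow_le_one₀ (by positivity) h2
    linarith
  rcases Nat.eq_zero_or_pos n with hn | hn
  · subst hn
    simp
  obtain ⟨B, _, _, hB, ⟨g, hg⟩, hBd⟩ := hδ
  rw [finrank_powJ] at hBd
  have hm₀ : 2 ≤ m' ^ n := by
    calc 2 ≤ m' := hm'
      _ = m' ^ 1 := (pow_one _).symm
      _ ≤ m' ^ n := Nat.pow_le_pow_right (by omega) hn
  have hρ : (1 : ℝ) ≤ finrank k B := by
    have : 1 ≤ finrank k B := by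
      rw [hBd]
      have : 0 < (1 + 2 * m ^ 2) ^ n := by positivity
      omega
    exact_mod_cast this
  have key := rpow_mmExponent_le k (m₀ := m' ^ n)
    (e := (m' ^ 2) ^ n * (m' ^ 2) ^ n * (m' ^ 2) ^ n) hm₀ hρ (fun N => by
      exact_mod_cast mmRank_pow_le_of_smoothable h hB g hg N)
  have h4 : ((m' ^ n : ℕ) : ℝ) ^ mmExponent k = ((m' : ℝ) ^ (mmExponent k)) ^ n := by
    rw [Nat.cast_pow, ← Real.rpow_natCast, ← Real.rpow_mul (by positivity), mul_comm,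
      Real.rpow_mul (by positivity), Real.rpow_natCast]
  rw [h4] at key
  refine key.trans (le_of_eq ?_)
  rw [hBd]
  push_cast
  ring

end lower

section upper

theorem defect_le_of_cover {A : Type u} [CommRing A] [Algebra k A] {X : ℕ}
    (h : ∃ (B : Type u) (_ : CommRing B) (_ : Algebra k B), IsSmoothable k B ∧
      (∃ g : B →ₐ[k] A, Function.Surjective g) ∧ finrank k B ≤ X) :
    defect k A ≤ (X : ℕ∞) := by
  obtain ⟨B, _, _, hB, ⟨g, hg⟩, hX⟩ := h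
  have hfin : Module.Finite k B := (hB.finrank_le (ι := Unit) (fun _ => 0)).1
  have hle : finrank k A ≤ finrank k B :=
    LinearMap.finrank_le_finrank_of_surjective (f := g.toLinearMap) hg
  have hmem : finrank k B - finrank k A ∈ defects k A :=
    ⟨B, inferInstance, inferInstance, hB, ⟨g, hg⟩, by omega⟩
  calc defect k A ≤ ((finrank k B - finrank k A : ℕ) : ℕ∞) := iInf₂_le _ hmem
    _ ≤ (X : ℕ∞) := by exact_mod_cast (by omega : finrank k B - finrank k A ≤ X)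

theorem defect_pow_le (h2 : (2 : k) ≠ 0) (m n : ℕ) :
    defect k (⨂[k] _ : Fin n, JM k m) ≤ (((1 + m ^ 2 + 2 * mmRank k m) ^ n : ℕ) : ℕ∞) :=
  defect_le_of_cover (exists_cover h2 (hasMMRank_mmRank k m) n)

end upper

section asymptotics

theorem tendsto_zero_of_lt {X d : ℕ} {ε : ℝ} (hd : 1 ≤ d)
    (h : (X : ℝ) < (d : ℝ) ^ (1 + ε)) {D : ℕ → ℕ∞} (hD : ∀ n, D n ≤ ((X ^ n : ℕ) : ℕ∞)) :
    Tendsto (fun n : ℕ => ((D n : ℕ∞) : ℝ≥0∞) / ENNReal.ofReal ((d : ℝ) ^ ((1 + ε) * n)))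
      atTop (𝓝 0) := by
  have hd0 : (0 : ℝ) < d := by exact_mod_cast hd
  have hpos : (0 : ℝ) < (d : ℝ) ^ (1 + ε) := Real.rpow_pos_of_pos hd0 _
  have hx0 : (0 : ℝ) ≤ (X : ℝ) / (d : ℝ) ^ (1 + ε) := by positivity
  have hx1 : (X : ℝ) / (d : ℝ) ^ (1 + ε) < 1 := by
    rw [div_lt_one hpos]; exact h
  have h1 : Tendsto (fun n : ℕ => ENNReal.ofReal (((X : ℝ) / (d : ℝ) ^ (1 + ε)) ^ n)) atTop
      (𝓝 0) := by
    have := tendsto_pow_atTop_nhds_zero_of_lt_one hx0 hx1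
    have h2 := ENNReal.tendsto_ofReal this
    simpa using h2
  refine tendsto_of_tendsto_of_tendsto_of_le_of_le tendsto_const_nhds h1 (fun _ => bot_le) ?_
  intro n
  have hpn : (0 : ℝ) < (d : ℝ) ^ ((1 + ε) * n) := Real.rpow_pos_of_pos hd0 _
  have h3 : ((X : ℝ) / (d : ℝ) ^ (1 + ε)) ^ n = (X : ℝ) ^ n / (d : ℝ) ^ ((1 + ε) * n) := by
    rw [div_pow, Real.rpow_mul hd0.le, Real.rpow_natCast]
  simp only [h3]
  rw [ENNReal.ofReal_div_of_pos hpn]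
  apply ENNReal.div_le_div_right
  calc ((D n : ℕ∞) : ℝ≥0∞) ≤ (((X ^ n : ℕ) : ℕ∞) : ℝ≥0∞) := by exact_mod_cast hD n
    _ = ENNReal.ofReal ((X : ℝ) ^ n) := by
        rw [← Nat.cast_pow, ENNReal.ofReal_natCast]
        simp

theorem tendsto_top_of_lt {d : ℕ} {ε x : ℝ} (hd : 1 ≤ d) (hε : 0 ≤ ε)
    (h : (d : ℝ) ^ (1 + ε) < x) {D : ℕ → ℕ∞}
    (hD : ∀ n, ∀ δ : ℕ, D n = (δ : ℕ∞) → x ^ n ≤ (d : ℝ) ^ n + δ) :
    Tendsto (fun n : ℕ => ((D n : ℕ∞) : ℝ≥0∞) / ENNReal.ofReal ((d : ℝ) ^ ((1 + ε) * n)))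
      atTop (𝓝 ⊤) := by
  have hd1 : (1 : ℝ) ≤ d := by exact_mod_cast hd
  have hd0 : (0 : ℝ) < d := by linarith
  have hpos : (0 : ℝ) < (d : ℝ) ^ (1 + ε) := Real.rpow_pos_of_pos hd0 _
  have hr : 1 < x / (d : ℝ) ^ (1 + ε) := by
    rw [one_lt_div hpos]; exact h
  have hlim : Tendsto (fun n : ℕ => ENNReal.ofReal ((x / (d : ℝ) ^ (1 + ε)) ^ n - 1)) atTop
      (𝓝 ⊤) := by
    apply ENNReal.tendsto_ofReal_nhds_top.mpr
    exact tendsto_atTop_add_const_right _ _ (tendsto_pow_atTop_atTop_of_one_lt hr)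
  refine tendsto_nhds_top_mono hlim (Eventually.of_forall fun n => ?_)
  have hpn : (0 : ℝ) < (d : ℝ) ^ ((1 + ε) * n) := Real.rpow_pos_of_pos hd0 _
  show ENNReal.ofReal ((x / (d : ℝ) ^ (1 + ε)) ^ n - 1) ≤ _
  rw [ENNReal.le_div_iff_mul_le (Or.inl (by simpa using hpn)) (Or.inl ENNReal.ofReal_ne_top)]
  by_cases htop : D n = ⊤
  · rw [htop]; simp
  obtain ⟨δ, hδ⟩ : ∃ δ : ℕ, D n = (δ : ℕ∞) := ⟨(D n).toNat, (ENat.natCast_toNat htop).symm⟩
  rw [hδ, ← ENNReal.ofReal_mul' hpn.le]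
  have h1 := hD n δ hδ
  have h3 : (d : ℝ) ^ ((1 + ε) * n) = ((d : ℝ) ^ (1 + ε)) ^ n := by
    rw [Real.rpow_mul hd0.le, Real.rpow_natCast]
  have h4 : (d : ℝ) ≤ (d : ℝ) ^ (1 + ε) := by
    calc (d : ℝ) = (d : ℝ) ^ (1 : ℝ) := (Real.rpow_one _).symm
      _ ≤ (d : ℝ) ^ (1 + ε) := Real.rpow_le_rpow_of_exponent_le hd1 (by linarith)
  have h5 : (d : ℝ) ^ n ≤ ((d : ℝ) ^ (1 + ε)) ^ n := pow_le_pow_left₀ hd0.le h4 n
  have h6 : ((x / (d : ℝ) ^ (1 + ε)) ^ n - 1) * (d : ℝ) ^ ((1 + ε) * n) ≤ (δ : ℝ) := by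
    rw [h3, sub_mul, div_pow, div_mul_cancel₀ _ (by positivity), one_mul]
    linarith
  calc ENNReal.ofReal (((x / (d : ℝ) ^ (1 + ε)) ^ n - 1) * (d : ℝ) ^ ((1 + ε) * n))
      ≤ ENNReal.ofReal (δ : ℝ) := ENNReal.ofReal_le_ofReal h6
    _ = ((δ : ℕ∞) : ℝ≥0∞) := by simp

/-- the upper half -/
theorem growth_upper (h2 : (2 : k) ≠ 0) {ε : ℝ} (hε : mmExponent k / 2 - 1 < ε) :
    ∀ᶠ m : ℕ in atTop, Tendsto (growthRatio k (JM k m) ε) atTop (𝓝 0) := by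
  have hω := two_le_mmExponent k
  obtain ⟨τ, hτ1, hτ2⟩ := exists_between (show mmExponent k < 2 * (1 + ε) by linarith)
  obtain ⟨C, hC0, hC⟩ := mmRank_le_of_mmExponent_lt k hτ1
  have h1 : Tendsto (fun m : ℕ => (m : ℝ) ^ (-(2 * (1 + ε) - τ))) atTop (𝓝 0) :=
    (tendsto_rpow_neg_atTop (by linarith)).comp tendsto_natCast_atTop_atTop
  have h3 : ∀ᶠ m : ℕ in atTop, (m : ℝ) ^ (-(2 * (1 + ε) - τ)) < 1 / (2 + 2 * C) :=
    h1.eventually_lt_const (by positivity)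
  filter_upwards [h3, eventually_ge_atTop 1] with m hm hm1
  have hm1' : (1 : ℝ) ≤ m := by exact_mod_cast hm1
  have hm0 : (0 : ℝ) < m := by linarith
  have hcast : ((finrank k (JM k m) : ℕ) : ℝ) = ((1 + 2 * m ^ 2 : ℕ) : ℝ) := by
    rw [JM.finrank_eq]
  unfold growthRatio
  rw [hcast]
  refine tendsto_zero_of_lt (X := 1 + m ^ 2 + 2 * mmRank k m) (by omega) ?_
    (fun n => defect_pow_le h2 m n)
  have e1 : (1 : ℝ) ≤ (m : ℝ) ^ τ := Real.one_le_rpow hm1' (by linarith)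
  have e2 : (m : ℝ) ^ 2 ≤ (m : ℝ) ^ τ := by
    rw [← Real.rpow_natCast]
    exact Real.rpow_le_rpow_of_exponent_le hm1' (by push_cast; linarith)
  have e3 := hC m hm1
  have e4 : ((1 + m ^ 2 + 2 * mmRank k m : ℕ) : ℝ) ≤ (2 + 2 * C) * (m : ℝ) ^ τ := by
    push_cast
    nlinarith
  have e5 : (2 + 2 * C) * (m : ℝ) ^ τ < (m : ℝ) ^ (2 * (1 + ε)) := by
    have h4 : (m : ℝ) ^ τ = (m : ℝ) ^ (-(2 * (1 + ε) - τ)) * (m : ℝ) ^ (2 * (1 + ε)) := by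
      rw [← Real.rpow_add hm0]
      congr 1
      ring
    rw [h4, ← mul_assoc]
    have h5 : (2 + 2 * C) * (m : ℝ) ^ (-(2 * (1 + ε) - τ)) < 1 := by
      rw [lt_div_iff₀ (by positivity)] at hm
      linarith
    have h6 : 0 < (m : ℝ) ^ (2 * (1 + ε)) := Real.rpow_pos_of_pos hm0 _
    nlinarith
  have e6 : (m : ℝ) ^ (2 * (1 + ε)) ≤ ((1 + 2 * m ^ 2 : ℕ) : ℝ) ^ (1 + ε) := by
    rw [Real.rpow_mul hm0.le]
    apply Real.rpow_le_rpow (by positivity) _ (by linarith)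
    push_cast
    have : (m : ℝ) ^ (2 : ℝ) = (m : ℝ) ^ 2 := by exact_mod_cast Real.rpow_natCast (m : ℝ) 2
    rw [this]
    nlinarith [sq_nonneg (m : ℝ)]
  linarith

/-- the lower half -/
theorem growth_lower [Infinite k] {ε : ℝ} (hε0 : 0 ≤ ε) (hε : ε < mmExponent k / 2 - 1) :
    ∀ᶠ m : ℕ in atTop, Tendsto (growthRatio k (JM k m) ε) atTop (𝓝 ⊤) := by
  have hω := two_le_mmExponent k
  set c : ℝ := (3 : ℝ) ^ (1 + ε) * 6 ^ (mmExponent k) with hc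
  have h1 : Tendsto (fun m : ℕ => (m : ℝ) ^ (mmExponent k - 2 * (1 + ε))) atTop atTop :=
    (tendsto_rpow_atTop (by linarith)).comp tendsto_natCast_atTop_atTop
  filter_upwards [h1.eventually_gt_atTop c, eventually_ge_atTop 4] with m hm hm4
  have hm4' : (4 : ℝ) ≤ m := by exact_mod_cast hm4
  have hm0 : (0 : ℝ) < m := by linarith
  have hcast : ((finrank k (JM k m) : ℕ) : ℝ) = ((1 + 2 * m ^ 2 : ℕ) : ℝ) := by
    rw [JM.finrank_eq]
  unfold growthRatio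
  rw [hcast]
  have hm' : (m : ℝ) / 6 ≤ ((m / 3 : ℕ) : ℝ) := by
    have h2 : m ≤ 3 * (m / 3) + 2 := by omega
    have h3 : (m : ℝ) ≤ 3 * ((m / 3 : ℕ) : ℝ) + 2 := by exact_mod_cast h2
    linarith
  refine tendsto_top_of_lt (x := ((m / 3 : ℕ) : ℝ) ^ (mmExponent k)) (by omega) hε0 ?_ ?_
  · have e1 : (((1 + 2 * m ^ 2 : ℕ) : ℝ)) ^ (1 + ε) ≤ (3 : ℝ) ^ (1 + ε) * (m : ℝ) ^ (2 * (1 + ε)) := by
      rw [Real.rpow_mul hm0.le, ← Real.mul_rpow (by norm_num) (by positivity)]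
      apply Real.rpow_le_rpow (by positivity) _ (by linarith)
      push_cast
      have : (m : ℝ) ^ (2 : ℝ) = (m : ℝ) ^ 2 := by exact_mod_cast Real.rpow_natCast (m : ℝ) 2
      rw [this]
      nlinarith
    have e2 : ((m : ℝ) / 6) ^ (mmExponent k) ≤ ((m / 3 : ℕ) : ℝ) ^ (mmExponent k) :=
      Real.rpow_le_rpow (by positivity) hm' (by linarith)
    have e3 : ((m : ℝ) / 6) ^ (mmExponent k) = (m : ℝ) ^ (mmExponent k) / 6 ^ (mmExponent k) :=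
      Real.div_rpow hm0.le (by norm_num) _
    have e4 : (m : ℝ) ^ (mmExponent k) =
        (m : ℝ) ^ (mmExponent k - 2 * (1 + ε)) * (m : ℝ) ^ (2 * (1 + ε)) := by
      rw [← Real.rpow_add hm0]
      congr 1
      ring
    have h6 : (0 : ℝ) < 6 ^ (mmExponent k) := Real.rpow_pos_of_pos (by norm_num) _
    have h7 : (0 : ℝ) < (m : ℝ) ^ (2 * (1 + ε)) := Real.rpow_pos_of_pos hm0 _
    have e5 : (3 : ℝ) ^ (1 + ε) * (m : ℝ) ^ (2 * (1 + ε)) < ((m : ℝ) / 6) ^ (mmExponent k) := by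
      rw [e3, lt_div_iff₀ h6, e4]
      have h8 : (3 : ℝ) ^ (1 + ε) * (m : ℝ) ^ (2 * (1 + ε)) * 6 ^ (mmExponent k) =
          c * (m : ℝ) ^ (2 * (1 + ε)) := by rw [hc]; ring
      rw [h8]
      exact mul_lt_mul_of_pos_right hm h7
    linarith
  · intro n δ hδ
    have hmem : ∃ δ' ∈ defects k (⨂[k] _ : Fin n, JM k m), δ' ≤ δ := by
      have hne : (defects k (⨂[k] _ : Fin n, JM k m)).Nonempty := by
        by_contra h
        rw [Set.not_nonempty_iff_eq_empty] at h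
        rw [defect, h] at hδ
        simp at hδ
      refine ⟨sInf (defects k (⨂[k] _ : Fin n, JM k m)), Nat.sInf_mem hne, ?_⟩
      have : ((sInf (defects k (⨂[k] _ : Fin n, JM k m)) : ℕ) : ℕ∞) ≤ (δ : ℕ∞) := by
        rw [← hδ, defect]
        refine le_iInf₂ fun δ hδ => ?_
        exact_mod_cast Nat.sInf_le hδ
      exact_mod_cast this
    obtain ⟨δ', hδ', hle⟩ := hmem
    have h3 := lower_real (k := k) (m' := m / 3) (by omega) hδ'
    have h4 : (δ' : ℝ) ≤ δ := by exact_mod_cast hle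
    push_cast
    linarith

end asymptotics

end Pool.Agent.H14.MM
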