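import Pool.Agent.H12.Defect.Defs

/-!
# Growth of the smoothability defect of powers
-/

open TensorProduct Module
open scoped ENNReal

namespace Pool.Agent.H14.MM

open Pool.Agent.H12.Defect

universe u

/-- For `Γ = Spec A` with `d = deg Γ = dim A`: the ratio `δ(Γ ^ n) / d ^ ((1 + ε) n)`, where
`δ` is the smoothability defect. -/
noncomputable def growthRatio (k : Type u) [Field k] (A : Type u) [CommRing A] [Algebra k A]
    (ε : ℝ) (n : ℕ) : ℝ≥0∞ :=
  ((defect k (⨂[k] _ : Fin n, A) : ℕ∞) : ℝ≥0∞) /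
    ENNReal.ofReal ((finrank k A : ℝ) ^ ((1 + ε) * n))

end Pool.Agent.H14.MM
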