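import Pool.Agent.H14.MM.Rank

/-!
# Kronecker powers of specialisations of arrays of bounded rank
-/

open Module

namespace Pool.Agent.H14.MM

variable {k : Type*} [Field k] {I J L : Type} [Fintype I] [Fintype J] [Fintype L]

/-- Kronecker powers of arrays of rank at most `D`. -/
def kpows (k : Type*) [Field k] (I J L : Type) (D N : ℕ) :
    Set ((Fin N → I) → (Fin N → J) → (Fin N → L) → k) :=
  {S | ∃ T : I → J → L → k, HasRank T D ∧ S = kpow N T}

/-- indicator of multi-indices with given content -/
noncomputable def chi (k : Type*) [Field k] {I J L : Type} (N : ℕ)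
    (e : I × J × L → Fin (N + 1)) :
    (Fin N → I) → (Fin N → J) → (Fin N → L) → k := by
  classical
  exact fun x y z => if ∀ a, (Finset.univ.filter fun i => (x i, y i, z i) = a).card = (e a : ℕ)
    then 1 else 0

theorem kpow_mem_chi (N : ℕ) (T : I → J → L → k) :
    kpow N T ∈ Submodule.span k (Set.range (chi k (I := I) (J := J) (L := L) N)) := by
  classical
  have h1 : kpow N T = ∑ e : I × J × L → Fin (N + 1),
      (∏ a, T a.1 a.2.1 a.2.2 ^ (e a : ℕ)) • chi k N e := by
    funext x y z
    simp only [Finset.sum_apply, Pi.smul_apply, smul_eq_mul]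
    let e₀ : I × J × L → Fin (N + 1) := fun a =>
      ⟨(Finset.univ.filter fun i => (x i, y i, z i) = a).card, by
        have := Finset.card_le_univ (Finset.univ.filter fun i : Fin N => (x i, y i, z i) = a)
        rw [Fintype.card_fin] at this
        omega⟩
    rw [Finset.sum_eq_single e₀]
    · have h2 : chi k N e₀ x y z = 1 := by
        rw [chi, if_pos]
        intro a; rfl
      rw [h2, mul_one, kpow]
      rw [← Finset.prod_fiberwise (s := Finset.univ) (g := fun i => (x i, y i, z i))]
      refine Finset.prod_congr rfl fun a _ => ?_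
      have : ∀ i ∈ Finset.univ.filter (fun i => (x i, y i, z i) = a),
          T (x i) (y i) (z i) = T a.1 a.2.1 a.2.2 := by
        intro i hi
        rw [Finset.mem_filter] at hi
        rw [← hi.2]
      rw [Finset.prod_congr rfl this, Finset.prod_const]
    · intro e _ he
      rw [chi, if_neg, mul_zero]
      intro h
      apply he
      funext a
      apply Fin.ext
      rw [← h a]
    · intro hh; exact absurd (Finset.mem_univ _) hh
  rw [h1]
  exact Submodule.sum_mem _ fun e _ => Submodule.smul_mem _ _ (Submodule.subset_span ⟨e, rfl⟩)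

/-- An array in the span of `N`-th powers of arrays of rank `≤ D` has small rank. -/
theorem hasRank_of_mem_span {D N : ℕ} {S : (Fin N → I) → (Fin N → J) → (Fin N → L) → k}
    (hS : S ∈ Submodule.span k (kpows k I J L D N)) :
    HasRank S ((N + 1) ^ (Fintype.card I * Fintype.card J * Fintype.card L) * D ^ N) := by
  classical
  obtain ⟨b, hb, hspan, hli⟩ := exists_linearIndependent k (kpows k I J L D N)
  let U : Submodule k ((Fin N → I) → (Fin N → J) → (Fin N → L) → k) :=
    Submodule.span k (Set.range (chi k (I := I) (J := J) (L := L) N))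
  have hbU : ∀ v : b, (v : (Fin N → I) → (Fin N → J) → (Fin N → L) → k) ∈ U := by
    intro v
    obtain ⟨T, _, hT⟩ := hb v.2
    rw [hT]
    exact kpow_mem_chi N T
  have hli' : LinearIndependent k (fun v : b => (⟨v, hbU v⟩ : U)) := by
    apply LinearIndependent.of_comp U.subtype
    exact hli
  have : Fintype b := @Fintype.ofFinite _ hli'.finite
  have hcard : Fintype.card b ≤ (N + 1) ^ (Fintype.card I * Fintype.card J * Fintype.card L) := by
    refine hli'.fintype_card_le_finrank.trans ?_
    have h1 := finrank_range_le_card (R := k) (chi k (I := I) (J := J) (L := L) N)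
    refine h1.trans (le_of_eq ?_)
    rw [Fintype.card_fun, Fintype.card_fin, Fintype.card_prod, Fintype.card_prod, mul_assoc]
  rw [← hspan, ← Set.coe_toFinset b, Submodule.mem_span_finset] at hS
  obtain ⟨f, -, rfl⟩ := hS
  refine (HasRank.sum b.toFinset _ (r := D ^ N) ?_).mono ?_
  · intro v hv
    rw [Set.mem_toFinset] at hv
    obtain ⟨T, hT, hvT⟩ := hb hv
    rw [hvT]
    exact (hT.kpow N).smul _
  · rw [Set.toFinset_card]
    exact Nat.mul_le_mul_right _ hcard

/-- Specialisation: if an array over `R` has rank `≤ D` over an extension field `Ω` of `R`, then the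
powers of its specialisations to `k` are in the span of the powers of arrays of rank `≤ D`. -/
theorem kpow_mem_span [Infinite k] {R Ω : Type*} [CommRing R] [Field Ω] [Algebra k R] [Algebra k Ω]
    [Algebra R Ω] [IsScalarTower k R Ω] (hinj : Function.Injective (algebraMap R Ω))
    (sp : R →ₐ[k] k) (T : I → J → L → R) {D : ℕ}
    (hT : HasRank (fun x y z => algebraMap R Ω (T x y z)) D) (N : ℕ) :
    kpow N (fun x y z => sp (T x y z)) ∈ Submodule.span k (kpows k I J L D N) := by
  classical
  by_contra hnot
  obtain ⟨ℓ, hℓ0, hℓ⟩ := Submodule.exists_le_ker_of_notMem hnot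
  -- coefficients of the functional
  let lc (p : (Fin N → I) × (Fin N → J) × (Fin N → L)) : k :=
    ℓ (fun x y z => if x = p.1 ∧ y = p.2.1 ∧ z = p.2.2 then 1 else 0)
  have hℓf : ∀ S, ℓ S = ∑ p, S p.1 p.2.1 p.2.2 * lc p := by
    intro S
    have : S = ∑ p : (Fin N → I) × (Fin N → J) × (Fin N → L), S p.1 p.2.1 p.2.2 •
        (fun x y z => if x = p.1 ∧ y = p.2.1 ∧ z = p.2.2 then (1 : k) else 0) := by
      funext x y z
      simp only [Finset.sum_apply, Pi.smul_apply, smul_eq_mul]
      rw [Finset.sum_eq_single (x, y, z)]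
      · simp
      · rintro ⟨x', y', z'⟩ _ h
        rw [if_neg, mul_zero]
        rintro ⟨h1, h2, h3⟩
        exact h (by simp only at h1 h2 h3; rw [h1, h2, h3])
      · intro hh; exact absurd (Finset.mem_univ _) hh
    conv_lhs => rw [this]
    rw [map_sum]
    exact Finset.sum_congr rfl fun p _ => by rw [map_smul, smul_eq_mul]
  obtain ⟨ι, _, a, b, c, hcard, habc⟩ := hT
  -- the polynomial in the entries of the factors
  let F : MvPolynomial (ι × (I ⊕ J ⊕ L)) k :=
    ∑ p : (Fin N → I) × (Fin N → J) × (Fin N → L), (∏ i, ∑ s : ι,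
      MvPolynomial.X (s, Sum.inl (p.1 i)) * MvPolynomial.X (s, Sum.inr (Sum.inl (p.2.1 i))) *
        MvPolynomial.X (s, Sum.inr (Sum.inr (p.2.2 i)))) * MvPolynomial.C (lc p)
  have hF0 : F = 0 := by
    apply MvPolynomial.funext
    intro v
    rw [map_zero]
    let T' : I → J → L → k := fun x y z => ∑ s : ι, v (s, Sum.inl x) * v (s, Sum.inr (Sum.inl y)) *
      v (s, Sum.inr (Sum.inr z))
    have hT' : HasRank T' D :=
      ⟨ι, inferInstance, fun s x => v (s, Sum.inl x), fun s y => v (s, Sum.inr (Sum.inl y)),
        fun s z => v (s, Sum.inr (Sum.inr z)), hcard, fun x y z => rfl⟩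
    have h1 : ℓ (kpow N T') = 0 := hℓ (Submodule.subset_span ⟨T', hT', rfl⟩)
    rw [hℓf] at h1
    rw [← h1]
    simp only [F, map_sum, map_mul, map_prod, MvPolynomial.eval_X, MvPolynomial.eval_C, kpow, T']
  -- evaluate over `Ω`
  have h2 : MvPolynomial.aeval (fun q : ι × (I ⊕ J ⊕ L) =>
      Sum.elim (fun x => a q.1 x) (Sum.elim (fun y => b q.1 y) (fun z => c q.1 z)) q.2) F = 0 := by
    rw [hF0, map_zero]
  have h3 : algebraMap R Ω (∑ p : (Fin N → I) × (Fin N → J) × (Fin N → L),
      (∏ i, T (p.1 i) (p.2.1 i) (p.2.2 i)) * algebraMap k R (lc p)) = 0 := by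
    rw [← h2]
    simp only [F, map_sum, map_mul, map_prod, MvPolynomial.aeval_X, MvPolynomial.aeval_C,
      Sum.elim_inl, Sum.elim_inr, ← habc, ← IsScalarTower.algebraMap_apply]
  have h4 : ∑ p : (Fin N → I) × (Fin N → J) × (Fin N → L),
      (∏ i, T (p.1 i) (p.2.1 i) (p.2.2 i)) * algebraMap k R (lc p) = 0 := by
    apply hinj
    rw [h3, map_zero]
  have h5 := congrArg sp h4
  rw [map_zero] at h5
  apply hℓ0
  rw [hℓf, ← h5]
  simp only [map_sum, map_mul, map_prod, AlgHom.commutes, kpow, Algebra.algebraMap_self,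
    RingHom.id_apply]

/-- combination of the previous results -/
theorem hasRank_kpow_specialise [Infinite k] {R Ω : Type*} [CommRing R] [Field Ω] [Algebra k R]
    [Algebra k Ω] [Algebra R Ω] [IsScalarTower k R Ω] (hinj : Function.Injective (algebraMap R Ω))
    (sp : R →ₐ[k] k) (T : I → J → L → R) {D : ℕ}
    (hT : HasRank (fun x y z => algebraMap R Ω (T x y z)) D) (N : ℕ) :
    HasRank (kpow N (fun x y z => sp (T x y z)))
      ((N + 1) ^ (Fintype.card I * Fintype.card J * Fintype.card L) * D ^ N) :=
  hasRank_of_mem_span (kpow_mem_span hinj sp T hT N)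

end Pool.Agent.H14.MM
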