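import Pool.Agent.H12.Defect.Special
import Pool.Agent.H14.MM.Span

/-!
# Ranks of structure arrays of algebras in terms of smoothable covers
-/

open TensorProduct Module

namespace Pool.Agent.H14.MM

open Pool.Agent.H12.Defect

universe u

variable {k : Type u} [Field k]

theorem finrank_family_le {𝒜 : Type u} [CommRing 𝒜] [Algebra (PowerSeries k) 𝒜]
    [Module.Finite (PowerSeries k) 𝒜] [Module.Free (PowerSeries k) 𝒜] {B : Type u} [CommRing B]
    [Algebra k B] [Module.Finite k B] {π : 𝒜 →+* B}
    (hker : RingHom.ker π = Ideal.span {algebraMap (PowerSeries k) 𝒜 PowerSeries.X})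
    (hC : ∀ r : k, π (algebraMap (PowerSeries k) 𝒜 (PowerSeries.C r)) = algebraMap k B r) :
    finrank (PowerSeries k) 𝒜 ≤ finrank k B := by
  have hsm := red_smul (k := k) hker hC
  let b := Module.Free.chooseBasis (PowerSeries k) 𝒜
  have hli : LinearIndependent k (fun l => π (b l)) := by
    rw [Fintype.linearIndependent_iff]
    intro c hc l
    have h1 : π (∑ l, (PowerSeries.C (c l)) • b l) = 0 := by
      rw [map_sum, ← hc]
      exact Finset.sum_congr rfl fun l _ => by rw [hsm, PowerSeries.constantCoeff_C]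
    rw [← RingHom.mem_ker, hker] at h1
    obtain ⟨ν, hν⟩ := Ideal.mem_span_singleton'.mp h1
    have h2 : ∑ l, (PowerSeries.C (c l)) • b l = (PowerSeries.X : PowerSeries k) • ν := by
      rw [Algebra.smul_def, mul_comm, hν]
    have h3 := congrArg (fun z => b.repr z l) h2
    simp only [b.repr_sum_self, map_smul, Finsupp.smul_apply, smul_eq_mul] at h3
    have h4 := congrArg PowerSeries.constantCoeff h3
    simpa using h4
  rw [finrank_eq_card_basis b]
  exact hli.fintype_card_le_finrank

/-- the constant coefficient as an algebra homomorphism -/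
noncomputable def ccAlg (k : Type u) [Field k] : PowerSeries k →ₐ[k] k :=
  { (PowerSeries.constantCoeff : PowerSeries k →+* k) with
    commutes' := by
      intro r
      simp }

theorem ccAlg_apply (r : PowerSeries k) : ccAlg k r = PowerSeries.constantCoeff r := rfl

/-- If `B` is smoothable and `B → A` is surjective, then the structure arrays of `A` have powers of
rank at most `poly(N) * (dim B) ^ N`. -/
theorem smoothable_rank [Infinite k] {B : Type u} [CommRing B] [Algebra k B]
    (hB : IsSmoothable k B) {A : Type*} [CommRing A] [Algebra k A] (g : B →ₐ[k] A)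
    (hg : Function.Surjective g) {I J L : Type} [Fintype I] [Fintype J] [Fintype L]
    (u : I → A) (v : J → A) (w : L → A →ₗ[k] k) (N : ℕ) :
    HasRank (kpow N (fun i j l => w l (u i * v j)))
      ((N + 1) ^ (Fintype.card I * Fintype.card J * Fintype.card L) * (finrank k B) ^ N) := by
  classical
  have hfinB : Module.Finite k B := (hB.finrank_le (ι := Unit) (fun _ => 0)).1
  obtain ⟨𝒜, _, _, hfin, hflat, hred, π, hπ, hker, hC⟩ := hB
  have hfree : Module.Free (PowerSeries k) 𝒜 := Module.free_of_flat_of_isLocalRing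
  have hrk := finrank_family_le hker hC
  have hsm := red_smul (k := k) hker hC
  let Ω := AlgebraicClosure (LaurentSeries k)
  have : Module.Flat (PowerSeries k) (LaurentSeries k) :=
    IsLocalization.flat _ (nonZeroDivisors (PowerSeries k))
  have hred' : IsReduced (Ω ⊗[PowerSeries k] 𝒜) := by
    have h1 : IsReduced (Ω ⊗[LaurentSeries k] (LaurentSeries k ⊗[PowerSeries k] 𝒜)) :=
      (Algebra.isGeometricallyReduced_field_iff _ _).mp hred
    exact isReduced_of_injective
      (Algebra.TensorProduct.cancelBaseChange (PowerSeries k) (LaurentSeries k) Ω Ω 𝒜).symm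
      (Algebra.TensorProduct.cancelBaseChange (PowerSeries k) (LaurentSeries k) Ω Ω 𝒜).symm.injective
  have hinj : Function.Injective (algebraMap (PowerSeries k) Ω) := by
    rw [IsScalarTower.algebraMap_eq (PowerSeries k) (LaurentSeries k) Ω]
    exact (algebraMap (LaurentSeries k) Ω).injective.comp
      (IsFractionRing.injective (PowerSeries k) (LaurentSeries k))
  let b := Module.Free.chooseBasis (PowerSeries k) 𝒜
  have hπsum : ∀ a : 𝒜, π a = ∑ l, PowerSeries.constantCoeff (b.repr a l) • π (b l) := by
    intro a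
    conv_lhs => rw [← b.sum_repr a]
    rw [map_sum]
    exact Finset.sum_congr rfl (fun l _ => hsm _ _)
  -- lifts
  choose u' hu' using fun i => (hg.comp hπ) (u i)
  choose v' hv' using fun j => (hg.comp hπ) (v j)
  let w' : L → 𝒜 →ₗ[PowerSeries k] PowerSeries k := fun i =>
    b.constr (PowerSeries k) (fun l => PowerSeries.C (w i (g (π (b l)))))
  have hw' : ∀ i a, PowerSeries.constantCoeff (w' i a) = w i (g (π a)) := by
    intro i a
    rw [hπsum a, map_sum, map_sum]
    simp only [w', Basis.constr_apply_fintype, map_sum, smul_eq_mul, map_mul, map_smul,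
      PowerSeries.constantCoeff_C, Basis.equivFun_apply]
  have hT0 : (fun i j l => w l (u i * v j)) =
      fun i j l => ccAlg k (w' l (u' i * v' j)) := by
    funext i j l
    rw [ccAlg_apply, hw', map_mul π, map_mul g, ← hu' i, ← hv' j]
    rfl
  rw [hT0]
  let _ : Algebra k Ω :=
    ((algebraMap (PowerSeries k) Ω).comp (algebraMap k (PowerSeries k))).toAlgebra
  have htower : IsScalarTower k (PowerSeries k) Ω := IsScalarTower.of_algebraMap_eq (fun _ => rfl)
  refine (hasRank_kpow_specialise (Ω := Ω) hinj (ccAlg k) (fun i j l => w' l (u' i * v' j))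
    (D := finrank (PowerSeries k) 𝒜) ?_ N).mono (Nat.mul_le_mul_left _ (Nat.pow_le_pow_left hrk N))
  obtain ⟨τ, _, ⟨e⟩⟩ := exists_algEquiv_pi Ω (Ω ⊗[PowerSeries k] 𝒜)
  have hcard : Fintype.card τ = finrank (PowerSeries k) 𝒜 := by
    rw [← Module.finrank_baseChange (R := Ω) (S := PowerSeries k) (M' := 𝒜)]
    rw [e.toLinearEquiv.finrank_eq, Module.finrank_fintype_fun_eq_card]
  refine HasRank.of_fintype (fun s i => e (1 ⊗ₜ u' i) s) (fun s j => e (1 ⊗ₜ v' j) s)
    (fun s l => ext Ω (w' l) (e.symm (Pi.single s 1))) hcard.le ?_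
  intro i j l
  have h1 : algebraMap (PowerSeries k) Ω (w' l (u' i * v' j)) =
      ext Ω (w' l) (e.symm (e (1 ⊗ₜ u' i) * e (1 ⊗ₜ v' j))) := by
    rw [← map_mul, AlgEquiv.symm_apply_apply, Algebra.TensorProduct.tmul_mul_tmul, one_mul,
      ext_tmul, Algebra.smul_def, mul_one]
  have h2 : e (1 ⊗ₜ u' i) * e (1 ⊗ₜ v' j) =
      ∑ s, (e (1 ⊗ₜ u' i) s * e (1 ⊗ₜ v' j) s) • (Pi.single s (1 : Ω) : τ → Ω) := by
    funext s
    rw [Finset.sum_apply, Finset.sum_eq_single s]
    · simp
    · intro s' _ hs'; simp [Ne.symm hs']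
    · intro hh; exact absurd (Finset.mem_univ _) hh
  rw [h1, h2, map_sum, map_sum]
  refine Finset.sum_congr rfl fun s _ => ?_
  rw [map_smul, map_smul, smul_eq_mul]

end Pool.Agent.H14.MM
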