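import Pool.Agent.H12.Defect.Special

/-!
# Smoothable schemes from points over `k⟦X⟧`
-/

open TensorProduct Module

namespace Pool.Agent.H14.MM

open Pool.Agent.H12.Defect

universe u

variable {k : Type u} [Field k]

/-- The image of a polynomial ring over `k⟦X⟧` in a power of `k⟦X⟧` has geometrically reduced
generic fibre. -/
theorem geomReduced_of_injective {Z : Type} [Fintype Z] {𝒜 : Type u} [CommRing 𝒜]
    [Algebra (PowerSeries k) 𝒜] (j : 𝒜 →ₐ[PowerSeries k] (Z → PowerSeries k))
    (hj : Function.Injective j) :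
    Algebra.IsGeometricallyReduced (LaurentSeries k) (LaurentSeries k ⊗[PowerSeries k] 𝒜) := by
  classical
  rw [Algebra.isGeometricallyReduced_field_iff]
  let Ω := AlgebraicClosure (LaurentSeries k)
  have : Module.Flat (PowerSeries k) (LaurentSeries k) :=
    IsLocalization.flat _ (nonZeroDivisors (PowerSeries k))
  have hfl : Module.Flat (PowerSeries k) Ω := Module.Flat.trans (PowerSeries k) (LaurentSeries k) Ω
  have h1 : Function.Injective (Algebra.TensorProduct.map (AlgHom.id (PowerSeries k) Ω) j) :=
    Module.Flat.lTensor_preserves_injective_linearMap j.toLinearMap hj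
  have h2 : IsReduced (Ω ⊗[PowerSeries k] (Z → PowerSeries k)) := by
    let e := Algebra.TensorProduct.piScalarRight (PowerSeries k) (PowerSeries k) Ω Z
    exact isReduced_of_injective e e.injective
  have h3 : IsReduced (Ω ⊗[PowerSeries k] 𝒜) :=
    isReduced_of_injective (Algebra.TensorProduct.map (AlgHom.id (PowerSeries k) Ω) j) h1
  exact isReduced_of_injective
      (Algebra.TensorProduct.cancelBaseChange (PowerSeries k) (LaurentSeries k) Ω Ω 𝒜)
      (Algebra.TensorProduct.cancelBaseChange (PowerSeries k) (LaurentSeries k) Ω Ω 𝒜).injective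

theorem finrank_le_family {𝒜 : Type u} [CommRing 𝒜] [Algebra (PowerSeries k) 𝒜]
    [Module.Finite (PowerSeries k) 𝒜] [Module.Free (PowerSeries k) 𝒜] {B : Type u} [CommRing B]
    [Algebra k B] {π : 𝒜 →+* B} (hπs : Function.Surjective π)
    (hker : RingHom.ker π = Ideal.span {algebraMap (PowerSeries k) 𝒜 PowerSeries.X})
    (hC : ∀ r : k, π (algebraMap (PowerSeries k) 𝒜 (PowerSeries.C r)) = algebraMap k B r) :
    finrank k B ≤ finrank (PowerSeries k) 𝒜 := by
  have hsm := red_smul (k := k) hker hC
  let b := Module.Free.chooseBasis (PowerSeries k) 𝒜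
  have hspan : Submodule.span k (Set.range fun l => π (b l)) = ⊤ := by
    rw [eq_top_iff]
    intro x _
    obtain ⟨a, rfl⟩ := hπs x
    rw [← b.sum_repr a, map_sum]
    refine Submodule.sum_mem _ (fun l _ => ?_)
    rw [hsm]
    exact Submodule.smul_mem _ _ (Submodule.subset_span ⟨l, rfl⟩)
  rw [finrank_eq_card_basis b]
  have h1 := finrank_range_le_card (R := k) (fun l => π (b l))
  rw [Set.finrank, hspan, finrank_top] at h1
  exact h1

/-- A finite algebra whose defining polynomial map factors through the evaluation at finitely many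
`k⟦X⟧`-points is a quotient of a smoothable algebra of dimension at most the number of points. -/
theorem exists_smoothable {σ Z : Type} [Fintype Z] (p : Z → σ → PowerSeries k)
    {A : Type u} [CommRing A] [Algebra k A] (ψ : MvPolynomial σ (PowerSeries k) →+* A)
    (hψs : Function.Surjective ψ)
    (hψC : ∀ r, ψ (MvPolynomial.C r) = algebraMap k A (PowerSeries.constantCoeff r))
    (hker : ∀ f, (∀ z, MvPolynomial.eval (p z) f = 0) → ψ f = 0) :
    ∃ (B : Type u) (_ : CommRing B) (_ : Algebra k B), IsSmoothable k B ∧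
      (∃ g : B →ₐ[k] A, Function.Surjective g) ∧ finrank k B ≤ Fintype.card Z := by
  classical
  let ev : MvPolynomial σ (PowerSeries k) →ₐ[PowerSeries k] (Z → PowerSeries k) :=
    MvPolynomial.aeval (fun s z => p z s)
  have hev : ∀ f z, ev f z = MvPolynomial.eval (p z) f := by
    intro f z
    have h1 : (Pi.evalAlgHom (PowerSeries k) (fun _ : Z => PowerSeries k) z).comp ev =
        MvPolynomial.aeval (p z) := by
      apply MvPolynomial.algHom_ext
      intro s
      simp [ev]
    have h2 := congrArg (fun h => h f) h1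
    simpa [MvPolynomial.aeval_eq_eval] using h2
  let 𝒜 := ev.range
  have hfin : Module.Finite (PowerSeries k) 𝒜 :=
    inferInstanceAs (Module.Finite (PowerSeries k) (Subalgebra.toSubmodule 𝒜))
  have htf : Module.IsTorsionFree (PowerSeries k) 𝒜 :=
    inferInstanceAs (Module.IsTorsionFree (PowerSeries k) (Subalgebra.toSubmodule 𝒜))
  have hflat : Module.Flat (PowerSeries k) 𝒜 := inferInstance
  have hfree : Module.Free (PowerSeries k) 𝒜 := inferInstance
  let I : Ideal 𝒜 := Ideal.span {algebraMap (PowerSeries k) 𝒜 PowerSeries.X}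
  let B : Type u := 𝒜 ⧸ I
  let _ : CommRing B := Ideal.Quotient.commRing I
  let π : 𝒜 →+* B := Ideal.Quotient.mk I
  let _ : Algebra k B :=
    (π.comp ((algebraMap (PowerSeries k) 𝒜).comp PowerSeries.C)).toAlgebra
  have hπC : ∀ r : k, π (algebraMap (PowerSeries k) 𝒜 (PowerSeries.C r)) =
      algebraMap k B r := fun _ => rfl
  have hπs : Function.Surjective π := Ideal.Quotient.mk_surjective
  have hπk : RingHom.ker π = I := Ideal.mk_ker
  refine ⟨B, inferInstance, inferInstance, ?_, ?_, ?_⟩
  · refine ⟨𝒜, inferInstance, inferInstance, hfin, hflat,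
      geomReduced_of_injective 𝒜.val Subtype.val_injective, π, hπs, hπk, hπC⟩
  · -- the map to `A`
    let evr : MvPolynomial σ (PowerSeries k) →+* 𝒜 := ev.rangeRestrict.toRingHom
    have hevr : Function.Surjective evr := ev.rangeRestrict_surjective
    have hk : RingHom.ker evr ≤ RingHom.ker ψ := by
      intro f hf
      rw [RingHom.mem_ker] at hf ⊢
      apply hker
      intro z
      rw [← hev]
      exact congrFun (congrArg Subtype.val hf) z
    let ψ' : 𝒜 →+* A := RingHom.liftOfSurjective evr hevr ⟨ψ, hk⟩
    have hψ' : ∀ f, ψ' (evr f) = ψ f := fun f =>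
      RingHom.liftOfRightInverse_comp_apply _ _ _ _ f
    have hψ'C : ∀ r, ψ' (algebraMap (PowerSeries k) 𝒜 r) =
        algebraMap k A (PowerSeries.constantCoeff r) := by
      intro r
      rw [← hψC, ← hψ']
      congr 1
      exact (ev.rangeRestrict.commutes r).symm
    have hI : ∀ a ∈ I, ψ' a = 0 := by
      intro a ha
      obtain ⟨b, rfl⟩ := Ideal.mem_span_singleton'.mp ha
      rw [map_mul, hψ'C]
      simp
    let g : B →ₐ[k] A :=
      { Ideal.Quotient.lift I ψ' hI with
        commutes' := by
          intro r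
          show Ideal.Quotient.lift I ψ' hI (π (algebraMap (PowerSeries k) 𝒜 (PowerSeries.C r))) = _
          rw [Ideal.Quotient.lift_mk, hψ'C]
          simp }
    refine ⟨g, ?_⟩
    intro a
    obtain ⟨f, rfl⟩ := hψs a
    refine ⟨π (evr f), ?_⟩
    show Ideal.Quotient.lift I ψ' hI (π (evr f)) = _
    rw [Ideal.Quotient.lift_mk, hψ']
  · refine (finrank_le_family hπs hπk hπC).trans ?_
    have h2 := Submodule.finrank_le (Subalgebra.toSubmodule 𝒜)
    rw [Module.finrank_fintype_fun_eq_card] at h2
    exact h2

end Pool.Agent.H14.MM
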