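import Pool.Agent.H14.MM.Points

/-!
# Smoothable covers of tensor powers
-/

open TensorProduct Module

namespace Pool.Agent.H14.MM

open Pool.Agent.H12.Defect

universe u

variable {k : Type u} [Field k] {σ Z : Type} [Fintype σ] [Fintype Z] {A : Type u} [CommRing A]
  [Algebra k A]

/-- The functional `l` on `A` (an algebra generated by the elements `x s`) is a limit of linear
combinations of evaluations at the points `p z`. -/
def Approx (p : Z → σ → PowerSeries k) (x : σ → A) (l : A →ₗ[k] k) : Prop :=
  ∃ (M : ℕ) (c : Z → PowerSeries k), ∀ α : σ → ℕ, ∃ g : PowerSeries k,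
    ∑ z, c z * ∏ s, p z s ^ α s = PowerSeries.X ^ M * g ∧
    PowerSeries.constantCoeff g = l (∏ s, x s ^ α s)

/-- generators of the tensor power -/
noncomputable def gens (n : ℕ) (x : σ → A) : Fin n × σ → ⨂[k] _ : Fin n, A :=
  fun q => PiTensorProduct.singleAlgHom (R := k) (A := fun _ : Fin n => A) q.1 (x q.2)

theorem prod_single {n : ℕ} (a : Fin n → A) :
    ∏ i, PiTensorProduct.singleAlgHom (R := k) (A := fun _ : Fin n => A) i (a i) =
      PiTensorProduct.tprod k a := by
  classical
  have h1 := map_prod (PiTensorProduct.tprodMonoidHom k (A := fun _ : Fin n => A))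
    (fun i => Pi.mulSingle i (a i)) Finset.univ
  rw [Finset.univ_prod_mulSingle] at h1
  exact h1.symm

omit [Fintype σ] in
theorem adjoin_gens {n : ℕ} {x : σ → A} (hx : Algebra.adjoin k (Set.range x) = ⊤) :
    Algebra.adjoin k (Set.range (gens (k := k) n x)) = ⊤ := by
  classical
  rw [eq_top_iff]
  have h1 : ∀ (i : Fin n) (a : A), PiTensorProduct.singleAlgHom (R := k) (A := fun _ : Fin n => A) i a ∈
      Algebra.adjoin k (Set.range (gens (k := k) n x)) := by
    intro i a
    have ha : a ∈ Algebra.adjoin k (Set.range x) := by rw [hx]; trivial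
    have h2 : PiTensorProduct.singleAlgHom (R := k) (A := fun _ : Fin n => A) i a ∈
        (Algebra.adjoin k (Set.range x)).map
          (PiTensorProduct.singleAlgHom (R := k) (A := fun _ : Fin n => A) i) :=
      Subalgebra.mem_map.mpr ⟨a, ha, rfl⟩
    rw [AlgHom.map_adjoin] at h2
    refine Algebra.adjoin_mono ?_ h2
    rintro _ ⟨_, ⟨s, rfl⟩, rfl⟩
    exact ⟨(i, s), rfl⟩
  have h2 : ∀ a : Fin n → A, PiTensorProduct.tprod k a ∈
      Algebra.adjoin k (Set.range (gens (k := k) n x)) := by
    intro a
    rw [← prod_single]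
    exact Subalgebra.prod_mem _ fun i _ => h1 i (a i)
  intro y _
  have h3 : y ∈ Submodule.span k (Set.range (PiTensorProduct.tprod k (s := fun _ : Fin n => A))) := by
    rw [PiTensorProduct.span_tprod_eq_top]; trivial
  rw [← Subalgebra.mem_toSubmodule]
  refine (Submodule.span_le.mpr ?_) h3
  rintro _ ⟨a, rfl⟩
  exact h2 a

/-- If all coordinate functionals of `A` are limits of evaluations at the points `p z`, then the
`n`-th tensor power of `A` has a smoothable cover of degree at most `(number of points) ^ n`. -/
theorem exists_smoothable_pow (p : Z → σ → PowerSeries k) (x : σ → A)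
    (hx : Algebra.adjoin k (Set.range x) = ⊤) {κ : Type} [Fintype κ] (b : Basis κ k A)
    (happ : ∀ i, Approx p x (b.coord i)) (n : ℕ) :
    ∃ (B : Type u) (_ : CommRing B) (_ : Algebra k B), IsSmoothable k B ∧
      (∃ g : B →ₐ[k] (⨂[k] _ : Fin n, A), Function.Surjective g) ∧
      finrank k B ≤ (Fintype.card Z) ^ n := by
  classical
  choose M c hMc using happ
  let P (w : Fin n → Z) : Fin n × σ → PowerSeries k := fun q => p (w q.1) q.2
  let ψ : MvPolynomial (Fin n × σ) (PowerSeries k) →+* ⨂[k] _ : Fin n, A :=
    MvPolynomial.eval₂Hom ((algebraMap k (⨂[k] _ : Fin n, A)).comp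
      (PowerSeries.constantCoeff : PowerSeries k →+* k)) (gens n x)
  have hψC : ∀ r, ψ (MvPolynomial.C r) =
      algebraMap k (⨂[k] _ : Fin n, A) (PowerSeries.constantCoeff r) := by
    intro r
    simp [ψ]
  have hψX : ∀ q, ψ (MvPolynomial.X q) = gens n x q := by
    intro q
    simp [ψ]
  have hψs : Function.Surjective ψ := by
    intro y
    have hy : y ∈ Algebra.adjoin k (Set.range (gens (k := k) n x)) := by
      rw [adjoin_gens hx]; trivial
    induction hy using Algebra.adjoin_induction with
    | mem y hy =>
      obtain ⟨q, rfl⟩ := hy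
      exact ⟨MvPolynomial.X q, hψX q⟩
    | algebraMap r => exact ⟨MvPolynomial.C (PowerSeries.C r), by rw [hψC]; simp⟩
    | add y z _ _ hy hz =>
      obtain ⟨f, rfl⟩ := hy
      obtain ⟨g, rfl⟩ := hz
      exact ⟨f + g, map_add _ _ _⟩
    | mul y z _ _ hy hz =>
      obtain ⟨f, rfl⟩ := hy
      obtain ⟨g, rfl⟩ := hz
      exact ⟨f * g, map_mul _ _ _⟩
  have hmain : ∀ (β : Fin n → κ) (f : MvPolynomial (Fin n × σ) (PowerSeries k)),
      ∃ g : PowerSeries k, ∑ w : Fin n → Z, (∏ i, c (β i) (w i)) * MvPolynomial.eval (P w) f =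
        PowerSeries.X ^ (∑ i, M (β i)) * g ∧
        PowerSeries.constantCoeff g =
          (Basis.piTensorProduct (fun _ : Fin n => b)).coord β (ψ f) := by
    intro β f
    induction f using MvPolynomial.induction_on' with
    | monomial a r =>
      choose g hg1 hg2 using fun i => hMc (β i) (fun s => a (i, s))
      refine ⟨r * ∏ i, g i, ?_, ?_⟩
      · have h1 : ∀ w : Fin n → Z, (∏ i, c (β i) (w i)) *
            MvPolynomial.eval (P w) (MvPolynomial.monomial a r) =
            r * ∏ i, (c (β i) (w i) * ∏ s, p (w i) s ^ a (i, s)) := by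
          intro w
          rw [MvPolynomial.eval_monomial, Finsupp.prod_fintype _ _ (by simp),
            Fintype.prod_prod_type, Finset.prod_mul_distrib]
          ring
        simp only [h1]
        have h3 := Finset.prod_univ_sum (fun _ : Fin n => (Finset.univ : Finset Z))
          (fun i z => c (β i) z * ∏ s, p z s ^ a (i, s))
        rw [← Finset.mul_sum, ← Fintype.piFinset_univ, ← h3]
        simp only [hg1]
        rw [Finset.prod_mul_distrib, Finset.prod_pow_eq_pow_sum]
        ring
      · have h2 : ψ (MvPolynomial.monomial a r) = (PowerSeries.constantCoeff r) •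
            PiTensorProduct.tprod k (fun i : Fin n => ∏ s, x s ^ a (i, s)) := by
          rw [MvPolynomial.monomial_eq, map_mul, hψC, Algebra.smul_def,
            Finsupp.prod_fintype _ _ (by simp), map_prod, Fintype.prod_prod_type, ← prod_single]
          congr 1
          refine Finset.prod_congr rfl fun i _ => ?_
          rw [map_prod]
          refine Finset.prod_congr rfl fun s _ => ?_
          rw [map_pow, map_pow, hψX, gens]
        rw [h2, map_smul, Basis.coord_apply, Basis.piTensorProduct_repr_tprod_apply, map_mul,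
          map_prod, smul_eq_mul]
        congr 1
        refine Finset.prod_congr rfl fun i _ => ?_
        rw [hg2, Basis.coord_apply]
    | add f f' hf hf' =>
      obtain ⟨g, hg1, hg2⟩ := hf
      obtain ⟨g', hg1', hg2'⟩ := hf'
      refine ⟨g + g', ?_, ?_⟩
      · simp only [map_add, mul_add, Finset.sum_add_distrib, hg1, hg1']
      · simp only [map_add, hg2, hg2']
  have hker : ∀ f, (∀ w, MvPolynomial.eval (P w) f = 0) → ψ f = 0 := by
    intro f hf
    apply (Basis.piTensorProduct (fun _ : Fin n => b)).ext_elem
    intro β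
    obtain ⟨g, hg1, hg2⟩ := hmain β f
    have h1 : PowerSeries.X ^ (∑ i, M (β i)) * g = 0 := by
      rw [← hg1]
      exact Finset.sum_eq_zero fun w _ => by rw [hf w, mul_zero]
    have h2 : g = 0 := by
      rcases mul_eq_zero.mp h1 with h | h
      · exact absurd h (pow_ne_zero _ PowerSeries.X_ne_zero)
      · exact h
    rw [h2, map_zero] at hg2
    rw [map_zero, Finsupp.zero_apply, hg2, Basis.coord_apply]
  obtain ⟨B, _, _, h1, h2, h3⟩ := exists_smoothable P ψ hψs hψC hker
  refine ⟨B, inferInstance, inferInstance, h1, h2, h3.trans (le_of_eq ?_)⟩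
  rw [Fintype.card_fun, Fintype.card_fin]

end Pool.Agent.H14.MM
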