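import Pool.Agent.H14.MM.Defs

/-!
# Ranks of three-way arrays, Kronecker powers, matrix multiplication
-/

open Module

namespace Pool.Agent.H14.MM

section HasRank

variable {K : Type*} [CommRing K] {I J L : Type}

/-- The array `T` is a sum of `r` products. -/
def HasRank (T : I → J → L → K) (r : ℕ) : Prop :=
  ∃ (ι : Type) (_ : Fintype ι) (a : ι → I → K) (b : ι → J → K) (c : ι → L → K),
    Fintype.card ι ≤ r ∧ ∀ x y z, T x y z = ∑ s, a s x * b s y * c s z

theorem HasRank.of_fintype {T : I → J → L → K} {r : ℕ} {ι : Type*} [Fintype ι]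
    (a : ι → I → K) (b : ι → J → K) (c : ι → L → K) (hr : Fintype.card ι ≤ r)
    (h : ∀ x y z, T x y z = ∑ s, a s x * b s y * c s z) : HasRank T r := by
  let e := Fintype.equivFin ι
  refine ⟨Fin (Fintype.card ι), inferInstance, fun s => a (e.symm s), fun s => b (e.symm s),
    fun s => c (e.symm s), by simpa using hr, ?_⟩
  intro x y z
  rw [h, ← Equiv.sum_comp e.symm]

theorem HasRank.mono {T : I → J → L → K} {r s : ℕ} (h : HasRank T r) (hrs : r ≤ s) :
    HasRank T s := by
  obtain ⟨ι, _, a, b, c, hr, h⟩ := h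
  exact ⟨ι, inferInstance, a, b, c, hr.trans hrs, h⟩

theorem HasRank.add {T T' : I → J → L → K} {r s : ℕ} (h : HasRank T r) (h' : HasRank T' s) :
    HasRank (T + T') (r + s) := by
  obtain ⟨ι, _, a, b, c, hr, h⟩ := h
  obtain ⟨ι', _, a', b', c', hr', h'⟩ := h'
  refine ⟨ι ⊕ ι', inferInstance, Sum.elim a a', Sum.elim b b', Sum.elim c c', ?_, ?_⟩
  · rw [Fintype.card_sum]; omega
  · intro x y z
    simp [Fintype.sum_sum_type, h, h']

theorem HasRank.smul {T : I → J → L → K} {r : ℕ} (h : HasRank T r) (t : K) :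
    HasRank (t • T) r := by
  obtain ⟨ι, _, a, b, c, hr, h⟩ := h
  refine ⟨ι, inferInstance, fun s x => t * a s x, b, c, hr, ?_⟩
  intro x y z
  simp only [Pi.smul_apply, smul_eq_mul, h, Finset.mul_sum]
  exact Finset.sum_congr rfl fun s _ => by ring

theorem HasRank.zero : HasRank (0 : I → J → L → K) 0 :=
  ⟨Empty, inferInstance, fun s => s.elim, fun s => s.elim, fun s => s.elim, by simp,
    fun x y z => by simp⟩

theorem HasRank.sum {α : Type*} (s : Finset α) (T : α → I → J → L → K) {r : ℕ}
    (h : ∀ i ∈ s, HasRank (T i) r) : HasRank (∑ i ∈ s, T i) (s.card * r) := by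
  classical
  induction s using Finset.induction_on with
  | empty => simpa using HasRank.zero
  | insert i s hi ih =>
    rw [Finset.sum_insert hi, Finset.card_insert_of_notMem hi]
    have h1 := (h i (Finset.mem_insert_self i s)).add
      (ih fun j hj => h j (Finset.mem_insert_of_mem hj))
    exact h1.mono (le_of_eq (by ring))

/-- pull back along maps of the index sets -/
theorem HasRank.comp {I' J' L' : Type} {T : I → J → L → K} {r : ℕ} (h : HasRank T r)
    (f : I' → I) (g : J' → J) (e : L' → L) :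
    HasRank (fun x y z => T (f x) (g y) (e z)) r := by
  obtain ⟨ι, _, a, b, c, hr, h⟩ := h
  exact ⟨ι, inferInstance, fun s x => a s (f x), fun s y => b s (g y), fun s z => c s (e z), hr,
    fun x y z => h _ _ _⟩

/-- The `N`-th Kronecker power. -/
def kpow (N : ℕ) (T : I → J → L → K) : (Fin N → I) → (Fin N → J) → (Fin N → L) → K :=
  fun x y z => ∏ i, T (x i) (y i) (z i)

theorem HasRank.kpow {T : I → J → L → K} {r : ℕ} (h : HasRank T r) (N : ℕ) :
    HasRank (kpow N T) (r ^ N) := by
  classical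
  obtain ⟨ι, _, a, b, c, hr, h⟩ := h
  refine ⟨Fin N → ι, inferInstance, fun s x => ∏ i, a (s i) (x i), fun s y => ∏ i, b (s i) (y i),
    fun s z => ∏ i, c (s i) (z i), ?_, ?_⟩
  · rw [Fintype.card_fun, Fintype.card_fin]
    exact Nat.pow_le_pow_left hr N
  · intro x y z
    simp only [MM.kpow, h, ← Finset.prod_mul_distrib]
    rw [Finset.prod_univ_sum]
    simp only [Fintype.piFinset_univ]

end HasRank

section mm

/-- The matrix multiplication array. -/
def mmT (K : Type*) [CommRing K] (ι : Type) [DecidableEq ι] : ι × ι → ι × ι → ι × ι → K :=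
  fun p q r => if p.2 = q.1 ∧ p.1 = r.1 ∧ q.2 = r.2 then 1 else 0

variable {k : Type*} [Field k]

theorem mmT_eq {ι : Type} [Fintype ι] [DecidableEq ι] (p q z : ι × ι) :
    mmT k ι p q z =
      (Matrix.single p.1 p.2 (1 : k) * Matrix.single q.1 q.2 (1 : k) : Matrix ι ι k) z.1 z.2 := by
  obtain ⟨p1, p2⟩ := p
  obtain ⟨q1, q2⟩ := q
  obtain ⟨z1, z2⟩ := z
  by_cases h : p2 = q1
  · subst h
    simp [mmT, Matrix.single_mul_single_same, Matrix.single_apply]
  · rw [Matrix.single_mul_single_of_ne _ _ _ _ h]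
    simp [mmT, h]

theorem HasMMRank.hasRank {m r : ℕ} (h : HasMMRank k m r) : HasRank (mmT k (Fin m)) r := by
  obtain ⟨f, g, C, h⟩ := h
  refine ⟨Fin r, inferInstance, fun i p => f i (Matrix.single p.1 p.2 1),
    fun i p => g i (Matrix.single p.1 p.2 1), fun i z => C i z.1 z.2, by simp, ?_⟩
  intro p q z
  rw [mmT_eq, h, Matrix.sum_apply]
  simp [Matrix.smul_apply]

theorem sum_mmT {ι : Type} [Fintype ι] [DecidableEq ι] (U V : ι → ι → k) (i l : ι) :
    ∑ p : ι × ι, ∑ q : ι × ι, (U p.1 p.2 * V q.1 q.2) * mmT k ι p q (i, l) =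
      ∑ j, U i j * V j l := by
  have h1 : ∀ p : ι × ι, ∑ q : ι × ι, (U p.1 p.2 * V q.1 q.2) * mmT k ι p q (i, l) =
      if p.1 = i then U i p.2 * V p.2 l else 0 := by
    rintro ⟨p1, p2⟩
    by_cases hp : p1 = i
    · subst hp
      rw [Finset.sum_eq_single (p2, l)]
      · simp [mmT]
      · rintro ⟨q1, q2⟩ _ hq
        rw [mmT, if_neg, mul_zero]
        rintro ⟨h1, _, h3⟩
        exact hq (by simp only at h1 h3; rw [h1, h3])
      · intro hh; exact absurd (Finset.mem_univ _) hh
    · simp [mmT, hp]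
  simp only [h1]
  rw [Fintype.sum_prod_type, Finset.sum_eq_single i]
  · simp
  · intro j _ hj; simp [hj]
  · intro hh; exact absurd (Finset.mem_univ _) hh

theorem hasMMRank_of {m r : ℕ} {ι : Type} [Fintype ι] [DecidableEq ι] (e : ι ≃ Fin m)
    (h : HasRank (mmT k ι) r) : HasMMRank k m r := by
  classical
  obtain ⟨κ, _, a, b, c, hr, h⟩ := h
  obtain ⟨u⟩ : Nonempty (κ ↪ Fin r) := by
    apply Function.Embedding.nonempty_of_card_le
    simpa using hr
  -- reindexed
  let F (s : κ) : Matrix (Fin m) (Fin m) k →ₗ[k] k :=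
    { toFun := fun X => ∑ p : ι × ι, X (e p.1) (e p.2) * a s p
      map_add' := by intro X Y; simp [add_mul, Finset.sum_add_distrib]
      map_smul' := by intro t X; simp [Finset.mul_sum, mul_assoc] }
  let G (s : κ) : Matrix (Fin m) (Fin m) k →ₗ[k] k :=
    { toFun := fun X => ∑ p : ι × ι, X (e p.1) (e p.2) * b s p
      map_add' := by intro X Y; simp [add_mul, Finset.sum_add_distrib]
      map_smul' := by intro t X; simp [Finset.mul_sum, mul_assoc] }
  let Cc (s : κ) : Matrix (Fin m) (Fin m) k := fun i j => c s (e.symm i, e.symm j)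
  have key : ∀ X Y : Matrix (Fin m) (Fin m) k, X * Y = ∑ s, (F s X * G s Y) • Cc s := by
    intro X Y
    ext i l
    rw [Matrix.sum_apply]
    have h1 : ∀ s, ((F s X * G s Y) • Cc s) i l = ∑ p : ι × ι, ∑ q : ι × ι,
        (X (e p.1) (e p.2) * Y (e q.1) (e q.2)) * (a s p * b s q * c s (e.symm i, e.symm l)) := by
      intro s
      simp only [F, G, Cc, LinearMap.coe_mk, AddHom.coe_mk, Matrix.smul_apply, smul_eq_mul]
      rw [Finset.sum_mul_sum, Finset.sum_mul]
      refine Finset.sum_congr rfl fun p _ => ?_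
      rw [Finset.sum_mul]
      refine Finset.sum_congr rfl fun q _ => ?_
      ring
    simp only [h1]
    rw [Finset.sum_comm]
    have h2 : ∀ p : ι × ι, ∑ s, ∑ q : ι × ι,
        (X (e p.1) (e p.2) * Y (e q.1) (e q.2)) * (a s p * b s q * c s (e.symm i, e.symm l)) =
        ∑ q : ι × ι, (X (e p.1) (e p.2) * Y (e q.1) (e q.2)) *
          mmT k ι p q (e.symm i, e.symm l) := by
      intro p
      rw [Finset.sum_comm]
      refine Finset.sum_congr rfl fun q _ => ?_
      rw [h, Finset.mul_sum]
    simp only [h2]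
    rw [Matrix.mul_apply, ← Equiv.sum_comp e]
    have h3 := sum_mmT (k := k) (fun a b => X (e a) (e b)) (fun a b => Y (e a) (e b))
      (e.symm i) (e.symm l)
    simp only [Equiv.apply_symm_apply] at h3
    rw [← h3]
  refine ⟨Function.extend u F 0, Function.extend u G 0, Function.extend u Cc 0, ?_⟩
  intro X Y
  rw [key X Y]
  rw [← Finset.sum_subset (Finset.subset_univ (Finset.univ.map u))]
  · rw [Finset.sum_map]
    refine Finset.sum_congr rfl fun s _ => ?_
    rw [u.injective.extend_apply, u.injective.extend_apply, u.injective.extend_apply]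
  · intro i _ hi
    rw [Function.extend_apply' F, Pi.zero_apply]
    · simp
    · rintro ⟨s, rfl⟩
      exact hi (Finset.mem_map_of_mem u (Finset.mem_univ s))

/-- the trivial bound -/
theorem hasRank_trivial {K : Type*} [CommRing K] {I J L : Type} [Fintype I] [Fintype J]
    [DecidableEq I] [DecidableEq J] (T : I → J → L → K) :
    HasRank T (Fintype.card I * Fintype.card J) := by
  refine ⟨I × J, inferInstance, fun s x => if x = s.1 then 1 else 0,
    fun s y => if y = s.2 then 1 else 0, fun s z => T s.1 s.2 z, by simp, ?_⟩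
  intro x y z
  rw [Fintype.sum_prod_type, Finset.sum_eq_single x]
  · rw [Finset.sum_eq_single y]
    · simp
    · intro b _ hb; simp [Ne.symm hb]
    · intro hh; exact absurd (Finset.mem_univ _) hh
  · intro b _ hb; simp [Ne.symm hb]
  · intro hh; exact absurd (Finset.mem_univ _) hh

theorem exists_hasMMRank (k : Type*) [Field k] (m : ℕ) : ∃ r, HasMMRank k m r :=
  ⟨_, hasMMRank_of (Equiv.refl _) (hasRank_trivial (mmT k (Fin m)))⟩

theorem hasMMRank_mmRank (k : Type*) [Field k] (m : ℕ) : HasMMRank k m (mmRank k m) :=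
  Nat.sInf_mem (exists_hasMMRank k m)

theorem mmRank_le {m r : ℕ} (h : HasMMRank k m r) : mmRank k m ≤ r := Nat.sInf_le h

/-- restriction to smaller matrices -/
theorem mmRank_mono {m m' : ℕ} (h : m ≤ m') : mmRank k m ≤ mmRank k m' := by
  apply mmRank_le
  have h1 := (hasMMRank_mmRank k m').hasRank
  have h2 := h1.comp (Prod.map (Fin.castLE h) (Fin.castLE h)) (Prod.map (Fin.castLE h) (Fin.castLE h))
    (Prod.map (Fin.castLE h) (Fin.castLE h))
  apply hasMMRank_of (Equiv.refl _)
  convert h2 using 1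
  funext p q z
  simp [mmT]

theorem sq_le_mmRank (k : Type*) [Field k] (m : ℕ) : m ^ 2 ≤ mmRank k m := by
  obtain ⟨f, g, C, h⟩ := hasMMRank_mmRank k m
  have hspan : Submodule.span k (Set.range C) = ⊤ := by
    rw [eq_top_iff]
    intro X _
    have := h X 1
    rw [mul_one] at this
    rw [this]
    exact Submodule.sum_mem _ fun i _ => Submodule.smul_mem _ _ (Submodule.subset_span ⟨i, rfl⟩)
  have h1 := finrank_range_le_card (R := k) C
  rw [Set.finrank, hspan, finrank_top, Fintype.card_fin, Module.finrank_matrix] at h1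
  simp at h1
  rw [pow_two]
  exact h1

/-- powers of a matrix multiplication array -/
theorem mmRank_pow_le {m N r : ℕ} (h : HasRank (kpow N (mmT k (Fin m))) r) :
    mmRank k (m ^ N) ≤ r := by
  classical
  apply mmRank_le
  have e : (Fin N → Fin m) ≃ Fin (m ^ N) := Fintype.equivOfCardEq (by simp)
  refine hasMMRank_of e ?_
  have h1 := h.comp (fun p : (Fin N → Fin m) × (Fin N → Fin m) => fun i => (p.1 i, p.2 i))
    (fun p : (Fin N → Fin m) × (Fin N → Fin m) => fun i => (p.1 i, p.2 i))
    (fun p : (Fin N → Fin m) × (Fin N → Fin m) => fun i => (p.1 i, p.2 i))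
  convert h1 using 1
  funext p q z
  simp only [mmT, kpow]
  rw [Finset.prod_ite_zero]
  simp [funext_iff, forall_and]

end mm

end Pool.Agent.H14.MM
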