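import Pool.Agent.H14.MM.Growth
import Pool.Agent.H14.MM.Apolar

/-!
# Transfer to `Ā_m`
-/

open TensorProduct Module Filter Topology
open scoped ENNReal

namespace Pool.Agent.H14.MM

open Pool.Agent.H12.Defect

universe u

variable {k : Type u} [Field k] {A A' : Type u} [CommRing A] [Algebra k A] [CommRing A']
  [Algebra k A']

/-- the map of tensor powers induced by a homomorphism -/
noncomputable def powMap (f : A →ₐ[k] A') (n : ℕ) :
    (⨂[k] _ : Fin n, A) →ₐ[k] (⨂[k] _ : Fin n, A') :=
  PiTensorProduct.liftAlgHom ((PiTensorProduct.tprod k).compLinearMap fun _ => f.toLinearMap)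
    (by
      rw [MultilinearMap.compLinearMap_apply]
      simp only [Pi.one_apply, AlgHom.toLinearMap_apply, map_one]
      rfl)
    (by
      intro x y
      simp only [MultilinearMap.compLinearMap_apply, Pi.mul_apply, AlgHom.toLinearMap_apply,
        map_mul]
      rw [PiTensorProduct.tprod_mul_tprod]
      rfl)

theorem powMap_tprod (f : A →ₐ[k] A') (n : ℕ) (a : Fin n → A) :
    powMap f n (PiTensorProduct.tprod k a) = PiTensorProduct.tprod k fun i => f (a i) := by
  simp [powMap]

theorem powMap_surjective {f : A →ₐ[k] A'} (hf : Function.Surjective f) (n : ℕ) :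
    Function.Surjective (powMap f n) := by
  intro y
  have h3 : y ∈ Submodule.span k (Set.range (PiTensorProduct.tprod k (s := fun _ : Fin n => A'))) := by
    rw [PiTensorProduct.span_tprod_eq_top]; trivial
  have h4 : Submodule.span k (Set.range (PiTensorProduct.tprod k (s := fun _ : Fin n => A'))) ≤
      LinearMap.range (powMap f n).toLinearMap := by
    rw [Submodule.span_le]
    rintro _ ⟨a, rfl⟩
    choose b hb using fun i => hf (a i)
    refine ⟨PiTensorProduct.tprod k b, ?_⟩
    rw [AlgHom.toLinearMap_apply, powMap_tprod]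
    congr 1
    funext i
    exact hb i
  exact h4 h3

theorem defects_pow_congr (e : A ≃ₐ[k] A') (n : ℕ) :
    defects k (⨂[k] _ : Fin n, A) = defects k (⨂[k] _ : Fin n, A') := by
  have hrank : finrank k (⨂[k] _ : Fin n, A) = finrank k (⨂[k] _ : Fin n, A') :=
    (PiTensorProduct.congr (R := k) (fun _ : Fin n => e.toLinearEquiv)).finrank_eq
  ext δ
  constructor
  · rintro ⟨B, _, _, hB, ⟨g, hg⟩, hd⟩
    exact ⟨B, inferInstance, inferInstance, hB,
      ⟨(powMap (e : A →ₐ[k] A') n).comp g, (powMap_surjective e.surjective n).comp hg⟩,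
      by rw [← hrank]; exact hd⟩
  · rintro ⟨B, _, _, hB, ⟨g, hg⟩, hd⟩
    exact ⟨B, inferInstance, inferInstance, hB,
      ⟨(powMap (e.symm : A' →ₐ[k] A) n).comp g, (powMap_surjective e.symm.surjective n).comp hg⟩,
      by rw [hrank]; exact hd⟩

theorem growthRatio_congr (e : A ≃ₐ[k] A') (ε : ℝ) : growthRatio k A ε = growthRatio k A' ε := by
  funext n
  rw [growthRatio, growthRatio, defect, defect, defects_pow_congr e n,
    e.toLinearEquiv.finrank_eq]

end Pool.Agent.H14.MM
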